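import Pool.Agent.K4H43.TR.Prop

/-!
# Coupled copies of an operator
-/

set_option autoImplicit false
open Finset Filter Topology

namespace Pool.Agent.K4H43.TR
open Pool.Agent.Y280

variable {E : Type*} [NormedAddCommGroup E] [NormedSpace ℂ E]

/-- Copies of the space in itself, forming an `ℓ_p`-sum. -/
structure Cp (p : ℝ) {n : ℕ} (V W : Fin n → E →L[ℂ] E) : Prop where
  hv : ∀ x : Fin n → E, ‖∑ a, V a (x a)‖ ^ p ≤ ∑ a, ‖x a‖ ^ p
  hw : ∀ x, ∑ a, ‖W a x‖ ^ p ≤ ‖x‖ ^ p
  hwv : ∀ a b x, W a (V b x) = if a = b then x else 0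

namespace Cp

variable {p : ℝ} {n : ℕ} {V W : Fin n → E →L[ℂ] E}

lemma v_le (h : Cp p V W) (hp : 0 < p) (a : Fin n) (x : E) : ‖V a x‖ ≤ ‖x‖ := by
  classical
  have h1 := h.hv (Pi.single a x)
  have e1 : ∑ b, V b ((Pi.single a x : Fin n → E) b) = V a x := by
    rw [sum_eq_single a]
    · rw [Pi.single_eq_same]
    · intro b _ hb
      rw [Pi.single_eq_of_ne hb, map_zero]
    · intro h'; exact absurd (mem_univ _) h'
  have e2 : ∑ b, ‖(Pi.single a x : Fin n → E) b‖ ^ p = ‖x‖ ^ p := by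
    rw [sum_eq_single a]
    · rw [Pi.single_eq_same]
    · intro b _ hb
      rw [Pi.single_eq_of_ne hb, norm_zero, Real.zero_rpow hp.ne']
    · intro h'; exact absurd (mem_univ _) h'
  rw [e1, e2] at h1
  exact (Real.rpow_le_rpow_iff (norm_nonneg _) (norm_nonneg _) hp).1 h1

lemma w_le (h : Cp p V W) (hp : 0 < p) (a : Fin n) (x : E) : ‖W a x‖ ≤ ‖x‖ := by
  have h1 : ‖W a x‖ ^ p ≤ ‖x‖ ^ p :=
    (single_le_sum (f := fun a => ‖W a x‖ ^ p) (fun _ _ => by positivity) (mem_univ a)).trans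
      (h.hw x)
  exact (Real.rpow_le_rpow_iff (norm_nonneg _) (norm_nonneg _) hp).1 h1

lemma v_norm (h : Cp p V W) (hp : 0 < p) (a : Fin n) : ‖V a‖ ≤ 1 :=
  ContinuousLinearMap.opNorm_le_bound _ zero_le_one fun x => by
    rw [one_mul]; exact h.v_le hp a x

lemma w_norm (h : Cp p V W) (hp : 0 < p) (a : Fin n) : ‖W a‖ ≤ 1 :=
  ContinuousLinearMap.opNorm_le_bound _ zero_le_one fun x => by
    rw [one_mul]; exact h.w_le hp a x

end Cp

/-- The coupled copies. -/
noncomputable def bg (m : ℕ) (V W : Fin (m + 2) → E →L[ℂ] E) (A : E →L[ℂ] E) (δ w : ℝ) :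
    E →L[ℂ] E :=
  ∑ a : Fin (m + 2), V a * A * W a +
    ∑ a : Fin (m + 1), wt m δ w a • (V a.succ * W a.castSucc)

lemma wt_norm_le {m : ℕ} {δ w : ℝ} (hδ : 0 ≤ δ) (hδw : δ ≤ w) (j : ℕ) : ‖wt m δ w j‖ ≤ w := by
  unfold wt
  split_ifs
  · rw [Complex.norm_real, Real.norm_of_nonneg hδ]; exact hδw
  · rw [Complex.norm_real, Real.norm_of_nonneg (hδ.trans hδw)]

section

variable {p : ℝ} {m : ℕ} {V W : Fin (m + 2) → E →L[ℂ] E} {A : E →L[ℂ] E} {δ w r : ℝ}

lemma bg_apply (x : E) : bg m V W A δ w x = ∑ a, V a (A (W a x)) +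
    ∑ a : Fin (m + 1), wt m δ w a • V a.succ (W a.castSucc x) := by
  unfold bg
  rw [_root_.add_apply, _root_.sum_apply, _root_.sum_apply]
  rfl

lemma norm_bg (h : Cp p V W) (hp : 0 < p) (hr : 0 ≤ r) (hA : ‖A‖ ≤ r) (hδ : 0 ≤ δ)
    (hδw : δ ≤ w) : ‖bg m V W A δ w‖ ≤ r + w := by
  have hw : 0 ≤ w := hδ.trans hδw
  refine ContinuousLinearMap.opNorm_le_bound _ (by positivity) fun x => ?_
  rw [bg_apply, add_mul]
  refine (norm_add_le _ _).trans (add_le_add ?_ ?_)
  · refine (Real.rpow_le_rpow_iff (norm_nonneg _) (by positivity) hp).1 ?_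
    refine (h.hv fun a => A (W a x)).trans ?_
    rw [Real.mul_rpow hr (norm_nonneg _)]
    refine le_trans ?_ (mul_le_mul_of_nonneg_left (h.hw x) (by positivity))
    rw [mul_sum]
    refine sum_le_sum fun a _ => ?_
    rw [← Real.mul_rpow hr (norm_nonneg _)]
    exact Real.rpow_le_rpow (norm_nonneg _) (A.le_of_opNorm_le hA _) hp.le
  · refine (Real.rpow_le_rpow_iff (norm_nonneg _) (by positivity) hp).1 ?_
    set z : Fin (m + 2) → E := Fin.cons 0 fun a : Fin (m + 1) => wt m δ w a • W a.castSucc x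
      with hz
    have e1 : ∑ a : Fin (m + 1), wt m δ w a • V a.succ (W a.castSucc x) = ∑ a, V a (z a) := by
      rw [Fin.sum_univ_succ (f := fun a => V a (z a)), hz]
      simp only [Fin.cons_zero, Fin.cons_succ, map_zero, zero_add, map_smul]
    have e2 : ∑ a, ‖z a‖ ^ p = ∑ a : Fin (m + 1), ‖wt m δ w a • W a.castSucc x‖ ^ p := by
      rw [Fin.sum_univ_succ, hz]
      simp only [Fin.cons_zero, Fin.cons_succ, norm_zero, Real.zero_rpow hp.ne', zero_add]
    rw [e1]
    refine (h.hv z).trans ?_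
    rw [e2, Real.mul_rpow hw (norm_nonneg _)]
    refine le_trans ?_ (mul_le_mul_of_nonneg_left (h.hw x) (by positivity))
    rw [Fin.sum_univ_castSucc (f := fun a => ‖W a x‖ ^ p), mul_add, mul_sum]
    refine le_trans (sum_le_sum fun a _ => ?_) (le_add_of_nonneg_right (by positivity))
    rw [norm_smul, Real.mul_rpow (norm_nonneg _) (norm_nonneg _)]
    exact mul_le_mul_of_nonneg_right
      (Real.rpow_le_rpow (norm_nonneg _) (wt_norm_le hδ hδw _) hp.le) (by positivity)

/-- The blocks of an operator. -/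
noncomputable def Bl (m : ℕ) (V W : Fin (m + 2) → E →L[ℂ] E) (S : E →L[ℂ] E) (a b : ℕ) :
    E →L[ℂ] E :=
  if h : a < m + 2 ∧ b < m + 2 then W ⟨a, h.1⟩ * S * V ⟨b, h.2⟩ else 0

lemma Bl_fin (S : E →L[ℂ] E) (a b : Fin (m + 2)) : Bl m V W S a b = W a * S * V b := by
  unfold Bl
  rw [dif_pos ⟨a.2, b.2⟩]

lemma norm_Bl (h : Cp p V W) (hp : 0 < p) {S : E →L[ℂ] E} (hS : ‖S‖ ≤ 1) (a b : ℕ) :
    ‖Bl m V W S a b‖ ≤ 1 := by
  unfold Bl
  split_ifs with hab
  · refine (norm_mul_le _ _).trans ?_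
    refine mul_le_one₀ ((norm_mul_le _ _).trans (mul_le_one₀ (h.w_norm hp _) (norm_nonneg _) hS))
      (norm_nonneg _) (h.v_norm hp _)
  · rw [norm_zero]; exact zero_le_one

lemma W_bg (h : Cp p V W) (a : Fin (m + 2)) (x : E) :
    W a (bg m V W A δ w x) = A (W a x) +
      if h : 0 < (a : ℕ) then wt m δ w (a - 1) • W ⟨a - 1, by omega⟩ x else 0 := by
  rw [bg_apply, map_add, map_sum, map_sum]
  congr 1
  · rw [sum_eq_single a]
    · rw [h.hwv, if_pos rfl]
    · intro b _ hb
      rw [h.hwv, if_neg hb.symm]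
    · intro h'; exact absurd (mem_univ _) h'
  · have e1 : ∀ b : Fin (m + 1), W a (wt m δ w b • V b.succ (W b.castSucc x)) =
        if a = b.succ then wt m δ w b • W b.castSucc x else 0 := by
      intro b
      rw [map_smul, h.hwv]
      split_ifs
      · rfl
      · rw [smul_zero]
    rw [sum_congr rfl fun b _ => e1 b]
    split_ifs with ha
    · rw [sum_eq_single (⟨a - 1, by omega⟩ : Fin (m + 1))]
      · rw [if_pos (by ext; simp; omega)]
        rfl
      · intro b _ hb
        rw [if_neg]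
        intro h'
        apply hb
        have h3 := congrArg Fin.val h'
        apply Fin.ext
        simp only [Fin.val_succ] at h3 ⊢
        omega
      · intro h'; exact absurd (mem_univ _) h'
    · refine sum_eq_zero fun b _ => ?_
      rw [if_neg]
      intro h'
      rw [h'] at ha
      simp at ha

lemma bg_V (h : Cp p V W) (b : Fin (m + 2)) (x : E) :
    bg m V W A δ w (V b x) = V b (A x) +
      if h : (b : ℕ) < m + 1 then wt m δ w b • V ⟨b + 1, by omega⟩ x else 0 := by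
  rw [bg_apply]
  congr 1
  · rw [sum_eq_single b]
    · rw [h.hwv, if_pos rfl]
    · intro a _ ha
      rw [h.hwv, if_neg ha, map_zero, map_zero]
    · intro h'; exact absurd (mem_univ _) h'
  · split_ifs with hb
    · rw [sum_eq_single (⟨b, hb⟩ : Fin (m + 1))]
      · rw [h.hwv, if_pos (by ext; simp)]
        rfl
      · intro a _ ha
        rw [h.hwv, if_neg, map_zero, smul_zero]
        intro h'
        apply ha
        ext
        simp [← h']
      · intro h'; exact absurd (mem_univ _) h'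
    · refine sum_eq_zero fun a _ => ?_
      rw [h.hwv, if_neg, map_zero, smul_zero]
      intro h'
      rw [← h'] at hb
      apply hb
      exact a.2

lemma rel_bg (h : Cp p V W) {S : E →L[ℂ] E}
    (hS : S * bg m V W A δ w = bg m V W A δ w * S) :
    ∀ a ≤ m + 1, ∀ b ≤ m + 1, A * Bl m V W S a b - Bl m V W S a b * A =
      (if b < m + 1 then wt m δ w b • Bl m V W S a (b + 1) else 0) -
        (if 0 < a then wt m δ w (a - 1) • Bl m V W S (a - 1) b else 0) := by
  intro a ha b hb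
  obtain ⟨a, rfl⟩ : ∃ a' : Fin (m + 2), a = a' := ⟨⟨a, by omega⟩, rfl⟩
  obtain ⟨b, rfl⟩ : ∃ b' : Fin (m + 2), b = b' := ⟨⟨b, by omega⟩, rfl⟩
  ext x
  have h1 : W a (S (bg m V W A δ w (V b x))) = W a (bg m V W A δ w (S (V b x))) := by
    have := congrArg (fun R : E →L[ℂ] E => W a (R (V b x))) hS
    simpa only [mul_apply_eq_comp] using this
  rw [W_bg h, bg_V h, map_add, map_add] at h1
  have e1 : (A * Bl m V W S a b - Bl m V W S a b * A) x =
      A (W a (S (V b x))) - W a (S (V b (A x))) := by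
    rw [Bl_fin]
    rfl
  have e2 : ((if (b : ℕ) < m + 1 then wt m δ w b • Bl m V W S a (b + 1) else 0) :
      E →L[ℂ] E) x = W a (S (if h : (b : ℕ) < m + 1 then wt m δ w b • V ⟨b + 1, by omega⟩ x
        else 0)) := by
    split_ifs with hb'
    · rw [map_smul, map_smul, _root_.smul_apply]
      have := Bl_fin (V := V) (W := W) S a ⟨b + 1, by omega⟩
      simp only at this
      rw [this]
      rfl
    · rw [map_zero, map_zero, _root_.zero_apply]
  have e3 : ((if 0 < (a : ℕ) then wt m δ w (a - 1) • Bl m V W S (a - 1) b else 0) :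
      E →L[ℂ] E) x = (if h : 0 < (a : ℕ) then wt m δ w (a - 1) • W ⟨a - 1, by omega⟩ (S (V b x))
        else 0) := by
    split_ifs with ha'
    · rw [_root_.smul_apply]
      have := Bl_fin (V := V) (W := W) S ⟨a - 1, by omega⟩ b
      simp only at this
      rw [this]
      rfl
    · rw [_root_.zero_apply]
  rw [e1, _root_.sub_apply, e2, e3]
  rw [sub_eq_sub_iff_add_eq_add, add_comm (W a (S _)) (W a (S (V b (A x))))]
  exact h1.symm

end

/-- The vectors on the copies. -/
def cc {F : Type*} [Zero F] {m : ℕ} (u : F) (U : Fin m → F) : ℕ → F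
  | 0 => u
  | b + 1 => if h : b < m then U ⟨b, h⟩ else 0

lemma cc_last {F : Type*} [Zero F] {m : ℕ} (u : F) (U : Fin m → F) : cc u U (m + 1) = 0 := by
  show (if h : m < m then U ⟨m, h⟩ else 0) = 0
  rw [dif_neg (lt_irrefl m)]

lemma cc_succ {F : Type*} [Zero F] {m : ℕ} (u : F) (U : Fin m → F) (b : Fin m) :
    cc u U (b + 1) = U b := by
  show (if h : (b : ℕ) < m then U ⟨b, h⟩ else 0) = U b
  rw [dif_pos b.2]

/-- The vector with the parts on the copies. -/
noncomputable def xx {m : ℕ} (V : Fin (m + 2) → E →L[ℂ] E) (x : E) (U : Fin m → E) : E :=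
  ∑ a : Fin (m + 2), V a (cc x U a)

/-- The functional with the parts on the copies. -/
noncomputable def yy {m : ℕ} (W : Fin (m + 2) → E →L[ℂ] E) (y : StrongDual ℂ E)
    (U : Fin m → StrongDual ℂ E) : StrongDual ℂ E :=
  ∑ a : Fin (m + 2), (cc y U a).comp (W a)

lemma yy_apply {m : ℕ} (W : Fin (m + 2) → E →L[ℂ] E) (y : StrongDual ℂ E)
    (U : Fin m → StrongDual ℂ E) (z : E) :
    yy W y U z = ∑ a : Fin (m + 2), (cc y U a) (W a z) := by
  unfold yy
  rw [_root_.sum_apply]
  rfl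

/-- **The coupled copies kill the pair.** -/
theorem bg_HC {p : ℝ} (hp : 0 < p) {A : E →L[ℂ] E} (hA : PR A) {x : E} {y : StrongDual ℂ E}
    {m : ℕ} {Uu : Fin m → E} {Vv : Fin m → StrongDual ℂ E} {η : ℝ} (hη : 0 < η)
    (hrep : ∀ S : E →L[ℂ] E, S * A = A * S → ‖S‖ ≤ 1 →
      ‖y (S x) - ∑ b, Vv b (S (Uu b))‖ ≤ η) {w : ℝ} (hw : 0 < w) :
    ∃ δ₀ > 0, ∀ δ, 0 < δ → δ ≤ δ₀ → ∀ V W : Fin (m + 2) → E →L[ℂ] E, Cp p V W →
      HC (bg m V W A δ w) (xx V x Uu) (yy W y fun b => -Vv b) (2 * η) := by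
  set uC := cc x Uu with huC
  set vC := cc y (fun b => -Vv b) with hvC
  set K : ℝ := (∑ a ∈ range (m + 1), ‖vC a‖) * ∑ b ∈ range (m + 1), ‖uC b‖ with hK
  have hK0 : 0 ≤ K := mul_nonneg (sum_nonneg fun _ _ => norm_nonneg _)
    (sum_nonneg fun _ _ => norm_nonneg _)
  refine ⟨η * w / (K + 1), by positivity, fun δ hδ hδ' V W h => ?_⟩
  intro S hS hS1
  obtain ⟨h0, h1, h2⟩ := block_toeplitzP hA m hδ hw (Bl m V W S) (rel_bg h hS)
  have hn := norm_Bl (m := m) h hp hS1
  have e1 : (yy W y fun b => -Vv b) (S (xx V x Uu)) =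
      ∑ a ∈ range (m + 1), ∑ b ∈ range (m + 1), vC a (Bl m V W S a b (uC b)) := by
    have e2 : (yy W y fun b => -Vv b) (S (xx V x Uu)) =
        ∑ a ∈ range (m + 2), ∑ b ∈ range (m + 2), vC a (Bl m V W S a b (uC b)) := by
      rw [← Fin.sum_univ_eq_sum_range (fun a => ∑ b ∈ range (m + 2),
        vC a (Bl m V W S a b (uC b))) (m + 2)]
      rw [yy_apply]
      refine sum_congr rfl fun a _ => ?_
      rw [← Fin.sum_univ_eq_sum_range (fun b => vC a (Bl m V W S a b (uC b))) (m + 2)]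
      unfold xx
      rw [map_sum, map_sum, map_sum]
      refine sum_congr rfl fun b _ => ?_
      rw [Bl_fin]
      rfl
    rw [e2, sum_range_succ (n := m + 1)]
    have e4 : ∑ b ∈ range (m + 2), vC (m + 1) (Bl m V W S (m + 1) b (uC b)) = 0 := by
      refine sum_eq_zero fun b _ => ?_
      rw [hvC, cc_last, _root_.zero_apply]
    rw [e4, add_zero]
    refine sum_congr rfl fun a _ => ?_
    rw [sum_range_succ (n := m + 1)]
    have e5 : vC a (Bl m V W S a (m + 1) (uC (m + 1))) = 0 := by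
      rw [huC, cc_last, map_zero, map_zero]
    rw [e5, add_zero]
  have e6 : ∑ a ∈ range (m + 1), ∑ b ∈ range (m + 1), vC a (Bl m V W S a b (uC b)) =
      ∑ a ∈ range (m + 1), vC a (Bl m V W S 0 0 (uC a)) +
      ∑ a ∈ range (m + 1), ∑ b ∈ range (m + 1),
        if a = b then 0 else vC a (Bl m V W S a b (uC b)) := by
    rw [← sum_add_distrib]
    refine sum_congr rfl fun a ha => ?_
    rw [mem_range] at ha
    have e7 : ∀ b ∈ range (m + 1), vC a (Bl m V W S a b (uC b)) =
        (if a = b then vC a (Bl m V W S 0 0 (uC a)) else 0) +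
        (if a = b then 0 else vC a (Bl m V W S a b (uC b))) := by
      intro b _
      by_cases hab : a = b
      · subst hab
        rw [if_pos rfl, if_pos rfl, add_zero, h1 a (by omega)]
      · rw [if_neg hab, if_neg hab, zero_add]
    rw [sum_congr rfl e7, sum_add_distrib, sum_ite_eq, if_pos (mem_range.2 ha)]
  have e8 : ∑ a ∈ range (m + 1), vC a (Bl m V W S 0 0 (uC a)) =
      y (Bl m V W S 0 0 x) - ∑ b, Vv b (Bl m V W S 0 0 (Uu b)) := by
    rw [sum_range_succ', add_comm, sub_eq_add_neg]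
    congr 1
    rw [← Fin.sum_univ_eq_sum_range
      (fun a => vC (a + 1) (Bl m V W S 0 0 (uC (a + 1)))) m, ← sum_neg_distrib]
    refine sum_congr rfl fun b _ => ?_
    rw [hvC, huC, cc_succ, cc_succ, _root_.neg_apply]
  have b1 := hrep (Bl m V W S 0 0) h0.symm (hn 0 0)
  have b2 : ‖∑ a ∈ range (m + 1), ∑ b ∈ range (m + 1),
      if a = b then 0 else vC a (Bl m V W S a b (uC b))‖ ≤ η := by
    have b3 : ∀ a ∈ range (m + 1), ∀ b ∈ range (m + 1),
        ‖if a = b then 0 else vC a (Bl m V W S a b (uC b))‖ ≤ δ / w * (‖vC a‖ * ‖uC b‖) := by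
      intro a ha b hb
      rw [mem_range] at ha hb
      split_ifs with hab
      · rw [norm_zero]
        positivity
      · obtain ⟨a', _, b', _, c, hc, he⟩ := h2 a (by omega) b (by omega) hab
        rw [he, _root_.smul_apply, map_smul, norm_smul]
        exact mul_le_mul hc (norm_pair_le (hn a' b') _ _) (norm_nonneg _) (by positivity)
    refine (norm_sum_le _ _).trans ((sum_le_sum fun a ha => (norm_sum_le _ _).trans
      (sum_le_sum fun b hb => b3 a ha b hb)).trans ?_)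
    have e9 : ∑ a ∈ range (m + 1), ∑ b ∈ range (m + 1), δ / w * (‖vC a‖ * ‖uC b‖) =
        δ / w * K := by
      rw [hK, sum_mul, mul_sum]
      refine sum_congr rfl fun a _ => ?_
      rw [mul_sum, mul_sum]
    rw [e9, div_mul_eq_mul_div, div_le_iff₀ hw]
    rw [le_div_iff₀ (by positivity)] at hδ'
    nlinarith
  rw [e1, e6, e8]
  exact (norm_add_le _ _).trans (by linarith)

end Pool.Agent.K4H43.TR
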