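import Pool.Agent.K4H43.TR.Seq
import Pool.Agent.K4H43.TR.Typ

/-!
# Copies and shifts in sequence spaces
-/

set_option autoImplicit false
set_option linter.unusedSectionVars false
open Filter Topology Finset TopologicalSpace
open scoped ENNReal

namespace Pool.Agent.K4H43.TR
open Pool.Agent.Y280

variable {X : Type*} [NormedAddCommGroup X] [NormedSpace ℂ X]
variable {p : ℝ≥0∞} [hp1 : Fact (1 ≤ p)]

lemma norm_pow_tsum (hp : p ≠ ∞) (f : LX X p) :
    ‖f‖ ^ p.toReal = ∑' i, ‖f i‖ ^ p.toReal := lp.norm_rpow_eq_tsum (toReal_pos hp) f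

lemma sum_pow (hp : p ≠ ∞) (f : LX X p) : Summable fun i => ‖f i‖ ^ p.toReal :=
  (lp.memℓp f).summable (toReal_pos hp)

section ext

variable {s : ℕ → ℕ}

lemma ext_norm (s : ℕ → ℕ) (f : ℕ → X) (hp : 0 < p.toReal) :
    (fun i => ‖Function.extend s f 0 i‖ ^ p.toReal) =
      Function.extend s (fun i => ‖f i‖ ^ p.toReal) 0 := by
  classical
  funext i
  by_cases h : ∃ j, s j = i
  · rw [Function.extend_def, Function.extend_def, dif_pos h, dif_pos h]
  · rw [Function.extend_apply' _ _ _ h, Function.extend_apply' _ _ _ h]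
    simp [Real.zero_rpow hp.ne']

lemma ext_memℓp (hp : p ≠ ∞) (hs : Function.Injective s) (f : LX X p) :
    Memℓp (E := fun _ : ℕ => X) (Function.extend s f 0) p := by
  rw [memℓp_gen_iff (toReal_pos hp), ext_norm s _ (toReal_pos hp)]
  have h1 := sum_pow hp f
  refine (hs.summable_iff ?_).1 ?_
  · intro x hx
    rw [Function.extend_apply' _ _ _ hx]
    rfl
  · refine h1.congr fun i => ?_
    rw [Function.comp_apply, hs.extend_apply]

lemma comp_memℓp (hp : p ≠ ∞) (hs : Function.Injective s) (f : LX X p) :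
    Memℓp (E := fun _ : ℕ => X) (fun i => f (s i)) p := by
  rw [memℓp_gen_iff (toReal_pos hp)]
  exact (sum_pow hp f).comp_injective hs

lemma ext_add (f g : ℕ → X) : Function.extend s (f + g) 0 =
    Function.extend s f 0 + Function.extend s g 0 := by
  classical
  funext i
  rw [Pi.add_apply]
  by_cases h : ∃ j, s j = i
  · rw [Function.extend_def, Function.extend_def, Function.extend_def, dif_pos h, dif_pos h,
      dif_pos h]
    rfl
  · rw [Function.extend_apply' _ _ _ h, Function.extend_apply' _ _ _ h,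
      Function.extend_apply' _ _ _ h]
    simp

lemma ext_smul (c : ℂ) (f : ℕ → X) : Function.extend s (c • f) 0 =
    c • Function.extend s f 0 := by
  classical
  funext i
  rw [Pi.smul_apply]
  by_cases h : ∃ j, s j = i
  · rw [Function.extend_def, Function.extend_def, dif_pos h, dif_pos h]
    rfl
  · rw [Function.extend_apply' _ _ _ h, Function.extend_apply' _ _ _ h]
    simp

/-- The vector spread over the range of an injection. -/
noncomputable def VS (hp : p ≠ ∞) (hs : Function.Injective s) : LX X p →ₗ[ℂ] LX X p where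
  toFun f := ⟨Function.extend s f 0, ext_memℓp hp hs f⟩
  map_add' f g := by
    apply lp.ext
    show Function.extend s ((f + g : LX X p) : ℕ → X) 0 = _
    rw [lp.coeFn_add, ext_add]
    rfl
  map_smul' c f := by
    apply lp.ext
    show Function.extend s ((c • f : LX X p) : ℕ → X) 0 = _
    rw [lp.coeFn_smul, ext_smul]
    rfl

/-- The restriction to the range of an injection. -/
noncomputable def WS (hp : p ≠ ∞) (hs : Function.Injective s) : LX X p →ₗ[ℂ] LX X p where
  toFun f := ⟨fun i => f (s i), comp_memℓp hp hs f⟩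
  map_add' f g := by
    apply lp.ext
    rfl
  map_smul' c f := by
    apply lp.ext
    rfl

lemma VS_coe (hp : p ≠ ∞) (hs : Function.Injective s) (f : LX X p) (i : ℕ) :
    VS hp hs f i = Function.extend s f 0 i := rfl

lemma WS_coe (hp : p ≠ ∞) (hs : Function.Injective s) (f : LX X p) (i : ℕ) :
    WS hp hs f i = f (s i) := rfl

lemma VS_norm (hp : p ≠ ∞) (hs : Function.Injective s) (f : LX X p) : ‖VS hp hs f‖ = ‖f‖ := by
  have hp0 := toReal_pos hp
  refine (Real.rpow_left_injOn hp0.ne') (norm_nonneg _) (norm_nonneg _) ?_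
  show ‖VS hp hs f‖ ^ p.toReal = ‖f‖ ^ p.toReal
  rw [norm_pow_tsum hp, norm_pow_tsum hp]
  have e1 : (fun i => ‖VS hp hs f i‖ ^ p.toReal) =
      Function.extend s (fun i => ‖f i‖ ^ p.toReal) 0 := ext_norm s _ hp0
  rw [e1]
  have h2 := hs.tsum_eq (f := Function.extend s (fun i => ‖f i‖ ^ p.toReal) 0) (by
    intro i hi
    by_contra h
    apply hi
    rw [Function.extend_apply' _ _ _ h]
    rfl)
  rw [← h2]
  exact tsum_congr fun i => hs.extend_apply _ _ _

lemma WS_norm_le (hp : p ≠ ∞) (hs : Function.Injective s) (f : LX X p) :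
    ‖WS hp hs f‖ ≤ ‖f‖ := by
  have hp0 := toReal_pos hp
  refine (Real.rpow_le_rpow_iff (norm_nonneg _) (norm_nonneg _) hp0).1 ?_
  rw [norm_pow_tsum hp, norm_pow_tsum hp]
  have h1 := sum_pow hp f
  exact Summable.tsum_le_tsum_of_inj s hs (fun _ _ => by positivity) (fun _ => le_rfl)
    (h1.comp_injective hs) h1

/-- The vector spread over the range of an injection. -/
noncomputable def VC (hp : p ≠ ∞) (hs : Function.Injective s) : LX X p →L[ℂ] LX X p :=
  (VS hp hs).mkContinuous 1 fun f => by rw [one_mul, VS_norm]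

/-- The restriction to the range of an injection. -/
noncomputable def WC (hp : p ≠ ∞) (hs : Function.Injective s) : LX X p →L[ℂ] LX X p :=
  (WS hp hs).mkContinuous 1 fun f => by rw [one_mul]; exact WS_norm_le hp hs f

lemma VC_norm (hp : p ≠ ∞) (hs : Function.Injective s) (f : LX X p) : ‖VC hp hs f‖ = ‖f‖ :=
  VS_norm hp hs f

lemma WC_norm_le (hp : p ≠ ∞) (hs : Function.Injective s) (f : LX X p) : ‖WC hp hs f‖ ≤ ‖f‖ :=
  WS_norm_le hp hs f

lemma VC_s (hp : p ≠ ∞) (hs : Function.Injective s) (f : LX X p) (i : ℕ) :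
    VC hp hs f (s i) = f i := hs.extend_apply _ _ _

lemma VC_nmem (hp : p ≠ ∞) (hs : Function.Injective s) (f : LX X p) {i : ℕ}
    (h : ¬ ∃ j, s j = i) : VC hp hs f i = 0 := by
  show Function.extend s f 0 i = 0
  rw [Function.extend_apply' _ _ _ h]
  rfl

lemma WC_coe (hp : p ≠ ∞) (hs : Function.Injective s) (f : LX X p) (i : ℕ) :
    WC hp hs f i = f (s i) := rfl

end ext

/-- The shift with the first block. -/
theorem chain_shift (hp : p ≠ ∞) (N : ℕ) :
    Chain p.toReal (T X p (range N)) (VC (X := X) hp (add_left_injective N)) where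
  qq x := by rw [T_T, inter_self]
  qr x := by
    apply lp.ext
    funext i
    rw [T_coe]
    split_ifs with h
    · rw [VC_nmem]
      · rfl
      · rintro ⟨j, hj⟩
        rw [mem_range] at h
        omega
    · rfl
  iso x := VC_norm hp _ x
  ps x := T_split hp _ x

theorem chainSys_LX (hp : p ≠ ∞) (h1 : 1 < p.toReal) : ChainSys p.toReal (LX X p) := by
  intro A B ε hε
  have hT : ∀ x ∈ A, ∀ᶠ N in atTop, ‖T X p (range N) x - x‖ ≤ ε := by
    intro x _
    have h2 := (T_tendsto hp x).comp tendsto_finset_range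
    have h3 := tendsto_iff_norm_sub_tendsto_zero.1 h2
    exact (h3.eventually (gt_mem_nhds hε)).mono fun _ h => h.le
  have hT' : ∀ y ∈ B, ∀ᶠ N in atTop, ‖y.comp (T X p (range N)) - y‖ ≤ ε := by
    intro y _
    have h2 := (func_tail hp h1 y).comp tendsto_finset_range
    refine (h2.eventually (gt_mem_nhds hε)).mono fun _ h => ?_
    rw [norm_sub_rev]
    exact h.le
  obtain ⟨N, hN1, hN2⟩ := (((eventually_all_finset A).2 hT).and
    ((eventually_all_finset B).2 hT')).exists
  exact ⟨_, _, chain_shift hp N, hN1, hN2⟩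

/-- The injections for the copies. -/
def sg (n K : ℕ) (a : Fin (n + 1)) (i : ℕ) : ℕ :=
  if (a : ℕ) = 0 then (if i < K then i else K + (n + 1) * (i - K)) else K + (n + 1) * i + a

lemma sg_lt (n K : ℕ) {i : ℕ} (hi : i < K) : sg n K 0 i = i := by
  unfold sg
  rw [if_pos (by simp), if_pos hi]

lemma sg_ge (n K : ℕ) {a : Fin (n + 1)} (ha : a ≠ 0) (i : ℕ) : K ≤ sg n K a i := by
  have h0 : (a : ℕ) ≠ 0 := fun h => ha (Fin.ext h)
  unfold sg
  rw [if_neg h0]
  have := Nat.zero_le ((n + 1) * i)
  omega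

lemma sg_ge0 (n K : ℕ) {i : ℕ} (hi : K ≤ i) : K ≤ sg n K 0 i := by
  unfold sg
  rw [if_pos (by simp), if_neg (by omega)]
  exact Nat.le_add_right _ _

lemma sg_inj (n K : ℕ) {a b : Fin (n + 1)} {i j : ℕ} (h : sg n K a i = sg n K b j) :
    a = b ∧ i = j := by
  have key : ∀ (c d u v : ℕ), c < n + 1 → d < n + 1 → (n + 1) * u + c = (n + 1) * v + d →
      c = d ∧ u = v := by
    intro c d u v hc hd he
    have h1 : ((n + 1) * u + c) % (n + 1) = c := by
      rw [Nat.mul_add_mod, Nat.mod_eq_of_lt hc]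
    have h2 : ((n + 1) * v + d) % (n + 1) = d := by
      rw [Nat.mul_add_mod, Nat.mod_eq_of_lt hd]
    have h3 : c = d := by rw [← h1, ← h2, he]
    refine ⟨h3, ?_⟩
    rw [h3] at he
    have h4 : (n + 1) * u = (n + 1) * v := Nat.add_right_cancel he
    exact Nat.eq_of_mul_eq_mul_left (Nat.succ_pos n) h4
  have ha := a.2
  have hb := b.2
  unfold sg at h
  split_ifs at h with h1 h2 h3 h4 h5 h6 h7
  · exact ⟨Fin.ext (by omega), h⟩
  · have := Nat.zero_le ((n + 1) * (j - K)); omega
  · have := Nat.zero_le ((n + 1) * j); omega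
  · have := Nat.zero_le ((n + 1) * (i - K)); omega
  · obtain ⟨_, h8⟩ := key 0 0 (i - K) (j - K) (by omega) (by omega) (by omega)
    exact ⟨Fin.ext (by omega), by omega⟩
  · obtain ⟨h8, _⟩ := key 0 b (i - K) j (by omega) (by omega) (by omega)
    omega
  · have := Nat.zero_le ((n + 1) * i); omega
  · obtain ⟨h8, _⟩ := key a 0 i (j - K) (by omega) (by omega) (by omega)
    omega
  · obtain ⟨h8, h9⟩ := key a b i j (by omega) (by omega) (by omega)
    exact ⟨Fin.ext h8, h9⟩

lemma sg_injective (n K : ℕ) (a : Fin (n + 1)) : Function.Injective (sg n K a) :=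
  fun _ _ h => (sg_inj n K h).2

theorem copies (hp : p ≠ ∞) (n K : ℕ) :
    Cp (E := LX X p) p.toReal (fun a => VC (X := X) hp (sg_injective n K a))
      (fun a => WC (X := X) hp (sg_injective n K a)) where
  hv x := by
    have hp0 := toReal_pos hp
    set F : Fin (n + 1) → LX X p := fun a => VC (X := X) hp (sg_injective n K a) (x a) with hF
    show ‖∑ a, F a‖ ^ p.toReal ≤ _
    have e1 : ∀ i, ‖(∑ a, F a : LX X p) i‖ ^ p.toReal = ∑ a, ‖F a i‖ ^ p.toReal := by
      intro i
      rw [lp.coeFn_sum, Finset.sum_apply]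
      by_cases h : ∃ a j, sg n K a j = i
      · obtain ⟨a, j, rfl⟩ := h
        have h1 : ∀ b, b ≠ a → F b (sg n K a j) = 0 := fun b hb => by
          rw [hF]
          refine VC_nmem hp _ _ ?_
          rintro ⟨k, hk⟩
          exact hb (sg_inj n K hk).1
        rw [sum_eq_single a (fun b _ hb => h1 b hb) fun h' => absurd (mem_univ _) h',
          sum_eq_single a (fun b _ hb => by rw [h1 b hb, norm_zero, Real.zero_rpow hp0.ne'])
            fun h' => absurd (mem_univ _) h']
      · have h1 : ∀ b, F b i = 0 := fun b => by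
          rw [hF]
          refine VC_nmem hp _ _ ?_
          rintro ⟨k, hk⟩
          exact h ⟨b, k, hk⟩
        have h2 : ∀ b ∈ (univ : Finset (Fin (n + 1))), ‖F b i‖ ^ p.toReal = 0 := fun b _ => by
          rw [h1 b, norm_zero, Real.zero_rpow hp0.ne']
        rw [sum_eq_zero fun b _ => h1 b, sum_eq_zero h2, norm_zero, Real.zero_rpow hp0.ne']
    rw [norm_pow_tsum hp, tsum_congr e1,
      Summable.tsum_finsetSum fun a _ => sum_pow hp (F a)]
    refine le_of_eq (sum_congr rfl fun a _ => ?_)
    rw [← norm_pow_tsum hp, hF]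
    simp only
    rw [VC_norm]
  hw x := by
    have hp0 := toReal_pos hp
    set F : Fin (n + 1) → LX X p := fun a => VC (X := X) hp (sg_injective n K a)
      (WC (X := X) hp (sg_injective n K a) x) with hF
    have e0 : ∀ a, ‖WC (X := X) hp (sg_injective n K a) x‖ = ‖F a‖ := fun a => by
      rw [hF]
      simp only
      rw [VC_norm]
    have e1 : ∀ i, ∑ a, ‖F a i‖ ^ p.toReal ≤ ‖x i‖ ^ p.toReal := by
      intro i
      by_cases h : ∃ a j, sg n K a j = i
      · obtain ⟨a, j, rfl⟩ := h
        have h1 : ∀ b, b ≠ a → F b (sg n K a j) = 0 := fun b hb => by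
          rw [hF]
          refine VC_nmem hp _ _ ?_
          rintro ⟨k, hk⟩
          exact hb (sg_inj n K hk).1
        rw [sum_eq_single a (fun b _ hb => by rw [h1 b hb, norm_zero, Real.zero_rpow hp0.ne'])
            fun h' => absurd (mem_univ _) h', hF]
        simp only
        rw [VC_s, WC_coe]
      · have h1 : ∀ b, F b i = 0 := fun b => by
          rw [hF]
          refine VC_nmem hp _ _ ?_
          rintro ⟨k, hk⟩
          exact h ⟨b, k, hk⟩
        have h2 : ∀ b ∈ (univ : Finset (Fin (n + 1))), ‖F b i‖ ^ p.toReal = 0 := fun b _ => by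
          rw [h1 b, norm_zero, Real.zero_rpow hp0.ne']
        rw [sum_eq_zero h2]
        positivity
    rw [sum_congr rfl fun a _ => by rw [e0 a, norm_pow_tsum hp],
      ← Summable.tsum_finsetSum fun a _ => sum_pow hp (F a), norm_pow_tsum hp]
    exact Summable.tsum_le_tsum e1 (summable_sum fun a _ => sum_pow hp (F a)) (sum_pow hp x)
  hwv a b x := by
    apply lp.ext
    funext i
    rw [WC_coe]
    split_ifs with h
    · subst h
      rw [VC_s]
    · rw [VC_nmem]
      · rfl
      · rintro ⟨j, hj⟩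
        exact h (sg_inj n K hj).1.symm

lemma V0_T (hp : p ≠ ∞) (n K : ℕ) (x : LX X p) :
    VC (X := X) hp (sg_injective n K 0) (T X p (range K) x) = T X p (range K) x := by
  apply lp.ext
  funext i
  by_cases h : ∃ j, sg n K 0 j = i
  · obtain ⟨j, rfl⟩ := h
    rw [VC_s, T_coe, T_coe]
    by_cases hj : j < K
    · rw [sg_lt n K hj]
    · rw [if_neg (by rw [mem_range]; exact hj), if_neg]
      rw [mem_range, not_lt]
      exact sg_ge0 n K (by omega)
  · rw [VC_nmem _ _ _ h, T_coe, if_neg]
    intro hi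
    rw [mem_range] at hi
    exact h ⟨i, sg_lt n K hi⟩

lemma W0_T (hp : p ≠ ∞) (n K : ℕ) (x : LX X p) :
    WC (X := X) hp (sg_injective n K 0) (T X p (range K) x) = T X p (range K) x := by
  apply lp.ext
  funext i
  rw [WC_coe, T_coe, T_coe]
  by_cases hj : i < K
  · rw [sg_lt n K hj]
  · rw [if_neg (c := i ∈ range K) (by rw [mem_range]; exact hj), if_neg]
    rw [mem_range, not_lt]
    exact sg_ge0 n K (by omega)

lemma Wa_T (hp : p ≠ ∞) (n K : ℕ) {a : Fin (n + 1)} (ha : a ≠ 0) (x : LX X p) :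
    WC (X := X) hp (sg_injective n K a) (T X p (range K) x) = 0 := by
  apply lp.ext
  funext i
  rw [WC_coe, T_coe, if_neg]
  · rfl
  · rw [mem_range, not_lt]
    exact sg_ge n K ha i

lemma T_V0 (hp : p ≠ ∞) (n K : ℕ) (x : LX X p) :
    T X p (range K) (VC (X := X) hp (sg_injective n K 0) x) = T X p (range K) x := by
  apply lp.ext
  funext i
  rw [T_coe, T_coe]
  by_cases hj : i < K
  · rw [if_pos (mem_range.2 hj), if_pos (mem_range.2 hj)]
    have := VC_s (X := X) hp (sg_injective n K 0) x i
    rwa [sg_lt n K hj] at this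
  · rw [if_neg (by rw [mem_range]; exact hj), if_neg (by rw [mem_range]; exact hj)]

lemma T_W0 (hp : p ≠ ∞) (n K : ℕ) (x : LX X p) :
    T X p (range K) (WC (X := X) hp (sg_injective n K 0) x) = T X p (range K) x := by
  apply lp.ext
  funext i
  rw [T_coe, T_coe, WC_coe]
  by_cases hj : i < K
  · rw [if_pos (mem_range.2 hj), if_pos (mem_range.2 hj), sg_lt n K hj]
  · rw [if_neg (by rw [mem_range]; exact hj), if_neg (by rw [mem_range]; exact hj)]

lemma T_Va (hp : p ≠ ∞) (n K : ℕ) {a : Fin (n + 1)} (ha : a ≠ 0) (x : LX X p) :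
    T X p (range K) (VC (X := X) hp (sg_injective n K a) x) = 0 := by
  apply lp.ext
  funext i
  rw [T_coe]
  by_cases hj : i < K
  · rw [if_pos (mem_range.2 hj), VC_nmem]
    · rfl
    · rintro ⟨j, hj'⟩
      have := sg_ge n K ha j
      omega
  · rw [if_neg (by rw [mem_range]; exact hj)]
    rfl

theorem copySys_LX (hp : p ≠ ∞) (h1 : 1 < p.toReal) : CopySys p.toReal (LX X p) := by
  intro n A B ε hε
  have hT : ∀ x ∈ A, ∀ᶠ N in atTop, ‖T X p (range N) x - x‖ ≤ ε / 2 := by
    intro x _
    have h2 := (T_tendsto hp x).comp tendsto_finset_range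
    have h3 := tendsto_iff_norm_sub_tendsto_zero.1 h2
    exact (h3.eventually (gt_mem_nhds (half_pos hε))).mono fun _ h => h.le
  have hT' : ∀ y ∈ B, ∀ᶠ N in atTop, ‖y.comp (T X p (range N)) - y‖ ≤ ε / 2 := by
    intro y _
    have h2 := (func_tail hp h1 y).comp tendsto_finset_range
    refine (h2.eventually (gt_mem_nhds (half_pos hε))).mono fun _ h => ?_
    rw [norm_sub_rev]
    exact h.le
  obtain ⟨K, hN1, hN2⟩ := (((eventually_all_finset A).2 hT).and
    ((eventually_all_finset B).2 hT')).exists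
  have hVn : ∀ a, ‖VC (X := X) hp (sg_injective n K a)‖ ≤ 1 := fun a =>
    norm_le_one_of fun x => (VC_norm hp _ x).le
  have hWn : ∀ a, ‖WC (X := X) hp (sg_injective n K a)‖ ≤ 1 := fun a =>
    norm_le_one_of fun x => WC_norm_le hp _ x
  -- a general estimate
  have gx : ∀ (R : LX X p →L[ℂ] LX X p) (x : LX X p), ‖R‖ ≤ 1 → x ∈ A →
      R (T X p (range K) x) = T X p (range K) x → ‖R x - x‖ ≤ ε := by
    intro R x hR hx hRT
    have e1 : R x - x = R (x - T X p (range K) x) + (T X p (range K) x - x) := by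
      rw [map_sub, hRT]; abel
    rw [e1]
    have h2 := hN1 x hx
    have h3 := le_of_norm hR (x - T X p (range K) x)
    rw [norm_sub_rev x] at h3
    exact (norm_add_le _ _).trans (by linarith)
  have gy : ∀ (R : LX X p →L[ℂ] LX X p) (y : StrongDual ℂ (LX X p)), ‖R‖ ≤ 1 → y ∈ B →
      (∀ z, T X p (range K) (R z) = T X p (range K) z) → ‖y.comp R - y‖ ≤ ε := by
    intro R y hR hy hRT
    have e1 : y.comp R - y = (y - y.comp (T X p (range K))).comp R +
        (y.comp (T X p (range K)) - y) := by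
      ext z
      simp only [_root_.sub_apply, _root_.add_apply, ContinuousLinearMap.comp_apply, hRT]
      ring
    rw [e1]
    have h2 := hN2 y hy
    have h3 := comp_le_of (y := y - y.comp (T X p (range K))) hR
    rw [norm_sub_rev y] at h3
    exact (norm_add_le _ _).trans (by linarith)
  refine ⟨_, _, copies hp n K, fun x hx => ⟨?_, ?_, fun a ha => ?_⟩,
    fun y hy => ⟨?_, ?_, fun a ha => ?_⟩⟩
  · exact gx _ x (hVn 0) hx (V0_T hp n K x)
  · exact gx _ x (hWn 0) hx (W0_T hp n K x)
  · have e1 : WC (X := X) hp (sg_injective n K a) x =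
        WC (X := X) hp (sg_injective n K a) (x - T X p (range K) x) := by
      rw [map_sub, Wa_T hp n K ha, sub_zero]
    show ‖WC (X := X) hp (sg_injective n K a) x‖ ≤ ε
    rw [e1]
    have h2 := hN1 x hx
    have h3 := le_of_norm (hWn a) (x - T X p (range K) x)
    rw [norm_sub_rev x] at h3
    linarith
  · exact gy _ y (hVn 0) hy (T_V0 hp n K)
  · exact gy _ y (hWn 0) hy (T_W0 hp n K)
  · have e1 : y.comp (VC (X := X) hp (sg_injective n K a)) =
        (y - y.comp (T X p (range K))).comp (VC (X := X) hp (sg_injective n K a)) := by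
      ext z
      simp only [_root_.sub_apply, ContinuousLinearMap.comp_apply, T_Va hp n K ha, map_zero,
        sub_zero]
    show ‖y.comp (VC (X := X) hp (sg_injective n K a))‖ ≤ ε
    rw [e1]
    have h2 := hN2 y hy
    have h3 := comp_le_of (y := y - y.comp (T X p (range K))) (hVn a)
    rw [norm_sub_rev y] at h3
    linarith

end Pool.Agent.K4H43.TR
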