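import Pool.Agent.K4H43.TR.Copy
import Pool.Agent.Y280.HLp
import Pool.Agent.Y280.HFin

/-!
# Typical contractions of `ℓ_p(X)`
-/

set_option autoImplicit false
open Filter Topology Finset TopologicalSpace
open scoped ENNReal

namespace Pool.Agent.K4H43.TR
open Pool.Agent.Y280

/-- **Typical contractions of `ℓ_p(X)`.** -/
theorem typ_LX {X : Type*} [NormedAddCommGroup X] [NormedSpace ℂ X] [CompleteSpace X]
    [Nontrivial X] [SeparableSpace X] (hX : Refl X) {p : ℝ≥0∞} [Fact (1 ≤ p)] (hp1 : 1 < p)
    (htop : p ≠ ∞) (C : Set (LX X p →L[ℂ] LX X p)) (hC : C = {T | ‖T‖ ≤ 1}) :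
    @IsCompletelyMetrizableSpace C (sotStar C) ∧ @BaireSpace C (sotStar C) ∧
      {T : C | GoodH (T : LX X p →L[ℂ] LX X p)} ∈ @residual C (sotStar C) := by
  have h1 : 1 < p.toReal := by
    rw [← ENNReal.toReal_one]
    exact (ENNReal.toReal_lt_toReal ENNReal.one_ne_top htop).2 hp1
  have hpq : p.toReal.HolderConjugate (Real.conjExponent p.toReal) :=
    Real.HolderConjugate.conjExponent h1
  have hR : Refl (LX X p) := lp_refl htop h1 hX
  have : SeparableSpace (LX X p) := lp_separable htop
  have : SeparableSpace (StrongDual ℂ (LX X p)) := separable_dual_of_refl hR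
  have : Nontrivial (LX X p) := by
    obtain ⟨x, hx⟩ := exists_ne (0 : X)
    refine ⟨⟨lp.single (E := fun _ : ℕ => X) p 0 x, 0, fun h => hx ?_⟩⟩
    have h2 := congrArg (fun f : LX X p => (f : ℕ → X) 0) h
    simpa using h2
  have hcm : @IsCompletelyMetrizableSpace C (sotStar C) := by
    refine cm_sotStar (fun T hT => by rw [hC] at hT; exact hT) ?_
    intro w T0 hw hlim
    rw [hC]
    refine ContinuousLinearMap.opNorm_le_bound _ zero_le_one fun x => ?_
    refine le_of_tendsto (hlim x).norm (Eventually.of_forall fun m => ?_)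
    have hm : ‖w m‖ ≤ 1 := by
      have := hw m
      rw [hC] at this
      exact this
    exact ((w m).le_opNorm x).trans (mul_le_mul_of_nonneg_right hm (norm_nonneg _))
  refine ⟨hcm, ?_, ?_⟩
  · exact @BaireSpace.of_completelyPseudoMetrizable _ (sotStar C)
      (@IsCompletelyMetrizableSpace.toIsCompletelyPseudoMetrizableSpace _ (sotStar C) hcm)
  · let _ : TopologicalSpace C := sotStar C
    have := fc_of_cm _ hcm
    exact typ_hypR hR hpq (chainSys_LX htop h1) (copySys_LX htop h1) (ballS_sotStar C hC)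

end Pool.Agent.K4H43.TR
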