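import Pool.Agent.K4H43.TR.Refl

/-!
# Functionals on the commutant of an operator in a reflexive space
-/

set_option autoImplicit false
open Finset Filter Topology
open scoped BoundedContinuousFunction

namespace Pool.Agent.K4H43.TR
open Pool.Agent.Y280

variable {E : Type*} [NormedAddCommGroup E] [NormedSpace ℂ E]

/-- The unit ball of the commutant, as a discrete space. -/
structure KB (T : E →L[ℂ] E) : Type _ where
  S : E →L[ℂ] E
  comm : S * T = T * S
  le : ‖S‖ ≤ 1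

instance (T : E →L[ℂ] E) : TopologicalSpace (KB T) := ⊥

instance (T : E →L[ℂ] E) : DiscreteTopology (KB T) := ⟨rfl⟩

/-- The function `S ↦ y (S u)` on the unit ball of the commutant. -/
noncomputable def ev (T : E →L[ℂ] E) (u : E) (y : StrongDual ℂ E) : KB T →ᵇ ℂ :=
  BoundedContinuousFunction.ofNormedAddCommGroupDiscrete (fun S : KB T => y (S.S u))
    (‖y‖ * ‖u‖) (fun S => norm_pair_le S.le u y)

lemma ev_apply (T : E →L[ℂ] E) (u : E) (y : StrongDual ℂ E) (S : KB T) :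
    ev T u y S = y (S.S u) := rfl

lemma ev_smul_left (T : E →L[ℂ] E) (c : ℂ) (u : E) (y : StrongDual ℂ E) :
    ev T (c • u) y = c • ev T u y := by
  ext S
  show y (S.S (c • u)) = c • y (S.S u)
  rw [map_smul, map_smul]

lemma ev_smul_right (T : E →L[ℂ] E) (c : ℂ) (u : E) (y : StrongDual ℂ E) :
    ev T u (c • y) = c • ev T u y := by
  ext S
  rfl

lemma ev_add_left (T : E →L[ℂ] E) (u u' : E) (y : StrongDual ℂ E) :
    ev T (u + u') y = ev T u y + ev T u' y := by
  ext S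
  show y (S.S (u + u')) = y (S.S u) + y (S.S u')
  rw [map_add, map_add]

lemma ev_add_right (T : E →L[ℂ] E) (u : E) (y y' : StrongDual ℂ E) :
    ev T u (y + y') = ev T u y + ev T u y' := by
  ext S
  rfl

/-- The set of the finite sums. -/
def DS (p q : ℝ) (T : E →L[ℂ] E) : Set (KB T →ᵇ ℂ) :=
  {g | ∃ (L : Type) (_ : Fintype L) (U : L → E) (V : L → StrongDual ℂ E),
    ∑ b, ‖U b‖ ^ p ≤ 1 ∧ ∑ b, ‖V b‖ ^ q ≤ 1 ∧ g = ∑ b, ev T (U b) (V b)}

lemma sum_scaleN {F : Type*} [NormedAddCommGroup F] [NormedSpace ℂ F] {p s : ℝ} (hp : 0 < p)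
    (hs : 0 ≤ s) {L : Type} [Fintype L] (u : L → F) :
    ∑ b, ‖((s ^ (1 / p) : ℝ) : ℂ) • u b‖ ^ p = s * ∑ b, ‖u b‖ ^ p := by
  rw [mul_sum]
  refine sum_congr rfl fun b _ => ?_
  rw [norm_smul, Complex.norm_real, Real.norm_of_nonneg (by positivity),
    Real.mul_rpow (by positivity) (norm_nonneg _), ← Real.rpow_mul hs,
    one_div_mul_cancel hp.ne', Real.rpow_one]

lemma sum_scaleD {p s : ℝ} (hp : 0 < p)
    (hs : 0 ≤ s) {L : Type} [Fintype L] (u : L → StrongDual ℂ E) :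
    ∑ b, ‖((s ^ (1 / p) : ℝ) : ℂ) • u b‖ ^ p = s * ∑ b, ‖u b‖ ^ p := sum_scaleN hp hs u

lemma ev_scale {p q s : ℝ} (hpq : p.HolderConjugate q) (hs : 0 ≤ s) (T : E →L[ℂ] E) (u : E)
    (y : StrongDual ℂ E) : ev T (((s ^ (1 / p) : ℝ) : ℂ) • u) (((s ^ (1 / q) : ℝ) : ℂ) • y) =
      (s : ℂ) • ev T u y := by
  rw [ev_smul_left, ev_smul_right, smul_smul, scale_mul hpq hs]

lemma DS_convex {p q : ℝ} (hpq : p.HolderConjugate q) (T : E →L[ℂ] E) :
    Convex ℝ (DS p q T) := by
  rintro g ⟨L, _, U, V, hU, hV, hg⟩ g' ⟨L', _, U', V', hU', hV', hg'⟩ s t hs ht hst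
  refine ⟨L ⊕ L', inferInstance,
    Sum.elim (fun b => ((s ^ (1 / p) : ℝ) : ℂ) • U b) (fun b => ((t ^ (1 / p) : ℝ) : ℂ) • U' b),
    Sum.elim (fun b => ((s ^ (1 / q) : ℝ) : ℂ) • V b) (fun b => ((t ^ (1 / q) : ℝ) : ℂ) • V' b),
    ?_, ?_, ?_⟩
  · rw [Fintype.sum_sum_type]
    simp only [Sum.elim_inl, Sum.elim_inr]
    rw [sum_scaleN hpq.pos hs, sum_scaleN hpq.pos ht]
    nlinarith
  · rw [Fintype.sum_sum_type]
    simp only [Sum.elim_inl, Sum.elim_inr]
    rw [sum_scaleD hpq.symm.pos hs, sum_scaleD hpq.symm.pos ht]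
    nlinarith
  · rw [Fintype.sum_sum_type]
    simp only [Sum.elim_inl, Sum.elim_inr, ev_scale hpq hs, ev_scale hpq ht]
    rw [← smul_sum, ← smul_sum, ← hg, ← hg']
    ext S
    simp

lemma exists_phase (z : ℂ) : ∃ θ : ℂ, ‖θ‖ = 1 ∧ θ * z = (‖z‖ : ℂ) := by
  by_cases hz : z = 0
  · exact ⟨1, by simp, by simp [hz]⟩
  · refine ⟨(starRingEnd ℂ) z / ‖z‖, ?_, ?_⟩
    · simp [norm_div, hz]
    · have hz' : (‖z‖ : ℂ) ≠ 0 := by simpa using hz
      rw [div_mul_eq_mul_div, mul_comm, Complex.mul_conj, Complex.normSq_eq_norm_sq]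
      push_cast
      field_simp

/-- **Representation of functionals on the commutant.** -/
theorem exists_rep_refl (hR : Refl E) {p q : ℝ} (hpq : p.HolderConjugate q) {T : E →L[ℂ] E}
    {x : E} {y : StrongDual ℂ E} {ρ : ℝ} (hρ : 0 < ρ) (h : HC T x y ρ) {η : ℝ} (hη : 0 < η) :
    ∃ (m : ℕ) (U : Fin m → E) (V : Fin m → StrongDual ℂ E), ∑ b, ‖U b‖ ^ p ≤ ρ ∧
      ∑ b, ‖V b‖ ^ q ≤ ρ ∧ ∀ S : E →L[ℂ] E, S * T = T * S → ‖S‖ ≤ 1 →
        ‖y (S x) - ∑ b, V b (S (U b))‖ ≤ η := by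
  classical
  have hmem : ((ρ⁻¹ : ℝ) : ℂ) • ev T x y ∈ closure (DS p q T) := by
    by_contra hc
    obtain ⟨f, s, hf, hs⟩ := RCLike.geometric_hahn_banach_closed_point (𝕜 := ℂ)
      (DS_convex hpq T).closure isClosed_closure hc
    have hzero : (0 : KB T →ᵇ ℂ) ∈ closure (DS p q T) := by
      apply subset_closure
      exact ⟨Empty, inferInstance, fun b => b.elim, fun b => b.elim, by simp, by simp, by simp⟩
    have hs0 : 0 < s := by
      have := hf 0 hzero
      simpa using this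
    -- single terms
    have h1 : ∀ (u : E) (v : StrongDual ℂ E), ‖u‖ ≤ 1 → ‖v‖ ≤ 1 → ‖f (ev T u v)‖ ≤ s := by
      intro u v hu hv
      obtain ⟨θ, hθ, hθ'⟩ := exists_phase (f (ev T u v))
      have h2 := hf (ev T (θ • u) v) (by
        apply subset_closure
        refine ⟨Unit, inferInstance, fun _ => θ • u, fun _ => v, ?_, ?_, by simp⟩
        · simp only [univ_unique, sum_const, card_singleton, one_smul]
          rw [norm_smul, hθ, one_mul]
          exact Real.rpow_le_one (norm_nonneg _) hu hpq.nonneg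
        · simp only [univ_unique, sum_const, card_singleton, one_smul]
          exact Real.rpow_le_one (norm_nonneg _) hv hpq.symm.nonneg)
      rw [ev_smul_left, map_smul, smul_eq_mul, hθ'] at h2
      simpa using h2.le
    have h2 : ∀ (u : E) (v : StrongDual ℂ E), ‖f (ev T u v)‖ ≤ s * ‖u‖ * ‖v‖ := by
      intro u v
      by_cases hu : u = 0
      · have : ev T u v = 0 := by
          rw [hu, ← zero_smul ℂ (0 : E), ev_smul_left, zero_smul]
        rw [this, map_zero, norm_zero]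
        positivity
      by_cases hv : v = 0
      · have : ev T u v = 0 := by
          rw [hv, ← zero_smul ℂ (0 : StrongDual ℂ E), ev_smul_right, zero_smul]
        rw [this, map_zero, norm_zero]
        positivity
      have hu0 : 0 < ‖u‖ := norm_pos_iff.2 hu
      have hv0 : 0 < ‖v‖ := norm_pos_iff.2 hv
      have h3 := h1 (((‖u‖⁻¹ : ℝ) : ℂ) • u) (((‖v‖⁻¹ : ℝ) : ℂ) • v) (by
        rw [norm_smul, Complex.norm_real, Real.norm_of_nonneg (by positivity),
          inv_mul_cancel₀ hu0.ne']) (by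
        rw [norm_smul, Complex.norm_real, Real.norm_of_nonneg (by positivity),
          inv_mul_cancel₀ hv0.ne'])
      rw [ev_smul_left, ev_smul_right, map_smul, map_smul, smul_eq_mul, smul_eq_mul, norm_mul,
        norm_mul, Complex.norm_real, Complex.norm_real, Real.norm_of_nonneg (by positivity),
        Real.norm_of_nonneg (by positivity), inv_mul_le_iff₀ hu0, inv_mul_le_iff₀ hv0] at h3
      linarith
    obtain ⟨B, hB, hB'⟩ := exists_op hR (fun u v => f (ev T u v)) hs0.le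
      (fun u u' v => by rw [ev_add_left, map_add])
      (fun c u v => by rw [ev_smul_left, map_smul, smul_eq_mul])
      (fun u v v' => by rw [ev_add_right, map_add])
      (fun c u v => by rw [ev_smul_right, map_smul, smul_eq_mul]) h2
    have hcomm : B * T = T * B := by
      ext u
      rw [mul_apply_eq_comp, mul_apply_eq_comp]
      apply dual_ext
      intro v
      rw [hB']
      have e1 : v (T (B u)) = (v.comp T) (B u) := rfl
      rw [e1, hB']
      congr 1
      ext S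
      rw [ev_apply, ev_apply]
      have e2 := congrArg (fun R : E →L[ℂ] E => v (R u)) S.comm
      simp only [mul_apply_eq_comp] at e2
      exact e2
    have h3 : ‖y (B x)‖ ≤ ρ * s := by
      have h4 := h (((s⁻¹ : ℝ) : ℂ) • B) (by
        rw [mul_smul_comm, smul_mul_assoc, hcomm]) (by
        rw [norm_smul, Complex.norm_real, Real.norm_of_nonneg (by positivity),
          inv_mul_le_iff₀ hs0, mul_one]
        exact hB)
      rw [_root_.smul_apply, map_smul, smul_eq_mul, norm_mul, Complex.norm_real,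
        Real.norm_of_nonneg (by positivity), inv_mul_le_iff₀ hs0] at h4
      linarith
    rw [map_smul, smul_eq_mul, ← hB'] at hs
    have h5 : s < ‖((ρ⁻¹ : ℝ) : ℂ) * y (B x)‖ := hs.trans_le (Complex.re_le_norm _)
    rw [norm_mul, Complex.norm_real, Real.norm_of_nonneg (by positivity), inv_mul_eq_div,
      lt_div_iff₀ hρ] at h5
    linarith
  obtain ⟨g, ⟨L, hL, U, V, hU, hV, hg⟩, hdist⟩ := Metric.mem_closure_iff.1 hmem (η / ρ)
    (by positivity)
  set e := Fintype.equivFin L with he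
  refine ⟨Fintype.card L, fun b => ((ρ ^ (1 / p) : ℝ) : ℂ) • U (e.symm b),
    fun b => ((ρ ^ (1 / q) : ℝ) : ℂ) • V (e.symm b), ?_, ?_, ?_⟩
  · rw [sum_scaleN hpq.pos hρ.le, e.symm.sum_comp (fun b => ‖U b‖ ^ p)]
    nlinarith
  · rw [sum_scaleD hpq.symm.pos hρ.le, e.symm.sum_comp (fun b => ‖V b‖ ^ q)]
    nlinarith
  · intro S hS hS1
    set S' : KB T := ⟨S, hS, hS1⟩ with hS'
    have e1 : ∑ b, (((ρ ^ (1 / q) : ℝ) : ℂ) • V (e.symm b))
        (S (((ρ ^ (1 / p) : ℝ) : ℂ) • U (e.symm b))) = (ρ : ℂ) * g S' := by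
      have e2 : ∀ b, (((ρ ^ (1 / q) : ℝ) : ℂ) • V (e.symm b))
          (S (((ρ ^ (1 / p) : ℝ) : ℂ) • U (e.symm b))) =
          ((ρ : ℂ) • ev T (U (e.symm b)) (V (e.symm b))) S' := by
        intro b
        rw [← ev_scale hpq hρ.le]
        rfl
      rw [sum_congr rfl fun b _ => e2 b,
        e.symm.sum_comp (fun b => ((ρ : ℂ) • ev T (U b) (V b)) S'), hg,
        BoundedContinuousFunction.coe_sum, Finset.sum_apply, mul_sum]
      rfl
    rw [e1]
    have h1 : ‖(((ρ⁻¹ : ℝ) : ℂ) • ev T x y) S' - g S'‖ ≤ η / ρ := by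
      rw [← dist_eq_norm]
      exact (BoundedContinuousFunction.dist_coe_le_dist S').trans hdist.le
    have e3 : (((ρ⁻¹ : ℝ) : ℂ) • ev T x y) S' = ((ρ⁻¹ : ℝ) : ℂ) * y (S x) := rfl
    have hρC : (ρ : ℂ) ≠ 0 := by exact_mod_cast hρ.ne'
    have e4 : y (S x) - (ρ : ℂ) * g S' = (ρ : ℂ) * (((ρ⁻¹ : ℝ) : ℂ) * y (S x) - g S') := by
      push_cast
      field_simp
    rw [e4, norm_mul, Complex.norm_real, Real.norm_of_nonneg hρ.le, ← e3]
    calc ρ * _ ≤ ρ * (η / ρ) := mul_le_mul_of_nonneg_left h1 hρ.le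
      _ = η := by field_simp

end Pool.Agent.K4H43.TR
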