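import Pool.Agent.K4H43.TR.Big
import Pool.Agent.K4H43.TR.Rep

/-!
# The approximating operators are near the given ones
-/

set_option autoImplicit false
open Finset Filter Topology

namespace Pool.Agent.K4H43.TR
open Pool.Agent.Y280

variable {E : Type*} [NormedAddCommGroup E] [NormedSpace ℂ E]

/-- Large first blocks with shifts. -/
def ChainSys (p : ℝ) (E : Type*) [NormedAddCommGroup E] [NormedSpace ℂ E] : Prop :=
  ∀ (X : Finset E) (Y : Finset (StrongDual ℂ E)) (ε : ℝ), 0 < ε →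
    ∃ Q R : E →L[ℂ] E, Chain p Q R ∧ (∀ x ∈ X, ‖Q x - x‖ ≤ ε) ∧ (∀ y ∈ Y, ‖y.comp Q - y‖ ≤ ε)

/-- Copies of the space, the first one near the identity. -/
def CopySys (p : ℝ) (E : Type*) [NormedAddCommGroup E] [NormedSpace ℂ E] : Prop :=
  ∀ (n : ℕ) (X : Finset E) (Y : Finset (StrongDual ℂ E)) (ε : ℝ), 0 < ε →
    ∃ V W : Fin (n + 1) → E →L[ℂ] E, Cp p V W ∧ (∀ x ∈ X, ‖V 0 x - x‖ ≤ ε ∧ ‖W 0 x - x‖ ≤ ε ∧
      ∀ a, a ≠ 0 → ‖W a x‖ ≤ ε) ∧ (∀ y ∈ Y, ‖y.comp (V 0) - y‖ ≤ ε ∧ ‖y.comp (W 0) - y‖ ≤ ε ∧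
      ∀ a, a ≠ 0 → ‖y.comp (V a)‖ ≤ ε)

lemma norm_le_one_of {T : E →L[ℂ] E} (h : ∀ x, ‖T x‖ ≤ ‖x‖) : ‖T‖ ≤ 1 :=
  ContinuousLinearMap.opNorm_le_bound _ zero_le_one fun x => by rw [one_mul]; exact h x

lemma le_of_norm {T : E →L[ℂ] E} (h : ‖T‖ ≤ 1) (x : E) : ‖T x‖ ≤ ‖x‖ :=
  (T.le_of_opNorm_le h x).trans_eq (one_mul _)

lemma comp_le_of {y : StrongDual ℂ E} {T : E →L[ℂ] E} (h : ‖T‖ ≤ 1) : ‖y.comp T‖ ≤ ‖y‖ := by
  refine (ContinuousLinearMap.opNorm_comp_le y T).trans ?_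
  exact mul_le_of_le_one_right (norm_nonneg _) h

/-- **The first operator near a given one.** -/
theorem exists_T1 {W : Type*} [TopologicalSpace W] {Φ : W → E →L[ℂ] E} {p : ℝ} (hp : 1 ≤ p)
    (hE : ChainSys p E) (h : BallS Φ) {O : Set W} (hO : IsOpen O) {w0 : W} (hw0 : w0 ∈ O) :
    ∃ w1 ∈ O, ∃ s : ℝ, 0 ≤ s ∧ s < 1 ∧ ‖Φ w1‖ ≤ s ∧ PR (Φ w1) := by
  classical
  have hp0 : 0 < p := by linarith
  obtain ⟨X, Y, ε4, hε4, hnear⟩ := h.nhd w0 O hO hw0
  set T0 := Φ w0 with hT0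
  have hT0n : ‖T0‖ ≤ 1 := h.norm w0
  set M : ℝ := ∑ x ∈ X, ‖x‖ + ∑ y ∈ Y, ‖y‖ with hM
  have hMX : ∀ x ∈ X, ‖x‖ ≤ M := by
    intro x hx
    have h1 := single_le_sum (f := fun x : E => ‖x‖) (fun _ _ => norm_nonneg _) hx
    have h2 : 0 ≤ ∑ y ∈ Y, ‖y‖ := sum_nonneg fun _ _ => norm_nonneg _
    rw [hM]
    linarith
  have hMY : ∀ y ∈ Y, ‖y‖ ≤ M := by
    intro y hy
    have h1 := single_le_sum (f := fun y : StrongDual ℂ E => ‖y‖) (fun _ _ => norm_nonneg _) hy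
    have h2 : 0 ≤ ∑ x ∈ X, ‖x‖ := sum_nonneg fun _ _ => norm_nonneg _
    rw [hM]
    linarith
  have hM0 : 0 ≤ M := add_nonneg (sum_nonneg fun _ _ => norm_nonneg _)
    (sum_nonneg fun _ _ => norm_nonneg _)
  obtain ⟨τ, hτ0, hτ1, hτ2⟩ := exists_small (a := 3 * M) (b := min (ε4 / 8) (1 / 8))
    (by positivity) (lt_min (by positivity) (by norm_num))
  have hτa : τ * (3 * M) ≤ ε4 / 8 := hτ1.trans (min_le_left _ _)
  have hτb : τ ≤ 1 / 8 := hτ2.trans (min_le_right _ _)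
  set r : ℝ := 1 - 3 * τ with hr
  have hr0 : 0 ≤ r := by rw [hr]; linarith
  set w : ℝ := 1 - 2 * τ with hw
  obtain ⟨δ, hδ0, hδ1, hδ2⟩ := exists_small (a := M) (b := min (ε4 / 8) τ) hM0
    (lt_min (by positivity) hτ0)
  have hδa : δ * M ≤ ε4 / 8 := hδ1.trans (min_le_left _ _)
  have hδb : δ ≤ τ := hδ2.trans (min_le_right _ _)
  obtain ⟨Q, R, hc, hX, hY⟩ := hE (X ∪ X.image T0) (Y ∪ Y.image fun y => y.comp T0) (ε4 / 16)
    (by positivity)
  have hQn : ‖Q‖ ≤ 1 := norm_le_one_of (hc.q_le hp0)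
  have hRn : ‖R‖ ≤ 1 := norm_le_one_of fun x => (hc.iso x).le
  set B : E →L[ℂ] E := (r : ℂ) • (Q * T0 * Q) with hB
  have hBa : ∀ x, B x = (r : ℂ) • Q (T0 (Q x)) := fun x => rfl
  have hQB : ∀ x, Q (B x) = B x := fun x => by rw [hBa, map_smul, hc.qq]
  have hBr : ∀ x, ‖B x‖ ≤ r * ‖Q x‖ := fun x => by
    rw [hBa, norm_smul, Complex.norm_real, Real.norm_of_nonneg hr0]
    exact mul_le_mul_of_nonneg_left ((le_of_norm hQn _).trans (le_of_norm hT0n _)) hr0
  have hn : ‖T1 Q R B δ w‖ ≤ 1 - τ := hc.norm_T1 hp hQB hBr hr0 hδ0.le (by rw [hw]; linarith)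
    (by rw [hr]; linarith) (by rw [hw]; linarith)
  have hPR : PR (T1 Q R B δ w) := hc.PR_T1 hp hQB hBr hr0 (by rw [hr, hw]; linarith) hδ0
    (by rw [hw]; linarith)
  obtain ⟨w1, hw1⟩ := h.surj _ (hn.trans (by linarith))
  refine ⟨w1, ?_, 1 - τ, by linarith, by linarith, by rw [hw1]; exact hn, by rw [hw1]; exact hPR⟩
  apply hnear
  · intro x hx
    rw [hw1, Chain.T1_apply]
    have h1 : ‖B x - Q (T0 (Q x))‖ ≤ 3 * τ * ‖x‖ := by
      have e1 : B x - Q (T0 (Q x)) = ((-(3 * τ) : ℝ) : ℂ) • Q (T0 (Q x)) := by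
        rw [hBa, hr]
        push_cast
        module
      rw [e1, norm_smul, Complex.norm_real, norm_neg, Real.norm_of_nonneg (by positivity)]
      exact mul_le_mul_of_nonneg_left ((le_of_norm hQn _).trans ((le_of_norm hT0n _).trans
        (le_of_norm hQn _))) (by positivity)
    have h2 : ‖Q (T0 (Q x)) - Q (T0 x)‖ ≤ ε4 / 16 := by
      rw [← map_sub, ← map_sub]
      exact (le_of_norm hQn _).trans ((le_of_norm hT0n _).trans (hX x (mem_union_left _ hx)))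
    have h3 : ‖Q (T0 x) - T0 x‖ ≤ ε4 / 16 :=
      hX _ (mem_union_right _ (mem_image_of_mem _ hx))
    have h4 : ‖R ((δ : ℂ) • Q x + (w : ℂ) • (x - Q x))‖ ≤ δ * ‖x‖ + ε4 / 16 := by
      rw [hc.iso]
      refine (norm_add_le _ _).trans ?_
      rw [norm_smul, norm_smul, Complex.norm_real, Complex.norm_real, Real.norm_of_nonneg hδ0.le,
        Real.norm_of_nonneg (show 0 ≤ w by rw [hw]; linarith)]
      refine add_le_add (mul_le_mul_of_nonneg_left (le_of_norm hQn _) hδ0.le) ?_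
      have h5 : ‖x - Q x‖ ≤ ε4 / 16 := by rw [norm_sub_rev]; exact hX x (mem_union_left _ hx)
      have h6 : w ≤ 1 := by rw [hw]; linarith
      exact (mul_le_of_le_one_left (norm_nonneg _) h6).trans h5
    have e1 : B x + R ((δ : ℂ) • Q x + (w : ℂ) • (x - Q x)) - T0 x =
        (B x - Q (T0 (Q x))) + (Q (T0 (Q x)) - Q (T0 x)) + (Q (T0 x) - T0 x) +
          R ((δ : ℂ) • Q x + (w : ℂ) • (x - Q x)) := by abel
    rw [e1]
    refine lt_of_le_of_lt ((norm_add_le _ _).trans (add_le_add ((norm_add_le _ _).trans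
      (add_le_add ((norm_add_le _ _).trans (add_le_add h1 h2)) h3)) h4)) ?_
    have h7 := hMX x hx
    have h8 : 3 * τ * ‖x‖ ≤ τ * (3 * M) := by nlinarith
    have h9 : δ * ‖x‖ ≤ δ * M := mul_le_mul_of_nonneg_left h7 hδ0.le
    linarith
  · intro y hy
    rw [hw1]
    have hy1 : ‖y.comp Q - y‖ ≤ ε4 / 16 := hY y (mem_union_left _ hy)
    have hy2 : ‖(y.comp T0).comp Q - y.comp T0‖ ≤ ε4 / 16 :=
      hY _ (mem_union_right _ (mem_image_of_mem _ hy))
    refine lt_of_le_of_lt (b := 3 * τ * ‖y‖ + ε4 / 16 + ε4 / 16 + ε4 / 16 * 2) ?_ ?_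
    · refine ContinuousLinearMap.opNorm_le_bound _ (by positivity) fun x => ?_
      rw [_root_.sub_apply, ContinuousLinearMap.comp_apply, ContinuousLinearMap.comp_apply,
        Chain.T1_apply, map_add, hBa]
      set z := (δ : ℂ) • Q x + (w : ℂ) • (x - Q x) with hz
      have h1 : ‖y (((-(3 * τ) : ℝ) : ℂ) • Q (T0 (Q x)))‖ ≤ 3 * τ * ‖y‖ * ‖x‖ := by
        rw [map_smul, norm_smul, Complex.norm_real, norm_neg, Real.norm_of_nonneg (by positivity),
          mul_assoc (3 * τ)]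
        refine mul_le_mul_of_nonneg_left ((y.le_opNorm _).trans (mul_le_mul_of_nonneg_left
          ((le_of_norm hQn _).trans ((le_of_norm hT0n _).trans
        (le_of_norm hQn _))) (norm_nonneg _))) (by positivity)
      have h2 : ‖(y.comp Q - y) (T0 (Q x))‖ ≤ ε4 / 16 * ‖x‖ :=
        (ContinuousLinearMap.le_of_opNorm_le _ hy1 _).trans (mul_le_mul_of_nonneg_left
          ((le_of_norm hT0n _).trans (le_of_norm hQn _)) (by positivity))
      have h3 : ‖((y.comp T0).comp Q - y.comp T0) x‖ ≤ ε4 / 16 * ‖x‖ :=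
        ContinuousLinearMap.le_of_opNorm_le _ hy2 _
      have h4 : ‖y (R z)‖ ≤ ε4 / 16 * 2 * ‖x‖ := by
        have e1 : y (R z) = -(y.comp Q - y) (R z) := by
          rw [_root_.sub_apply, ContinuousLinearMap.comp_apply, hc.qr, map_zero, zero_sub, neg_neg]
        rw [e1, norm_neg]
        refine (ContinuousLinearMap.le_of_opNorm_le _ hy1 _).trans ?_
        rw [hc.iso, mul_assoc]
        refine mul_le_mul_of_nonneg_left ?_ (by positivity)
        refine (norm_add_le _ _).trans ?_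
        rw [norm_smul, norm_smul, Complex.norm_real, Complex.norm_real,
          Real.norm_of_nonneg hδ0.le,
          Real.norm_of_nonneg (show 0 ≤ w by rw [hw]; linarith)]
        have h5 : δ * ‖Q x‖ ≤ 1 * ‖x‖ := mul_le_mul (by linarith) (le_of_norm hQn _)
          (norm_nonneg _) zero_le_one
        have h6 : w * ‖x - Q x‖ ≤ 1 * ‖x‖ := mul_le_mul (by rw [hw]; linarith)
          (hc.qc_le hp0 x) (norm_nonneg _) zero_le_one
        linarith
      have e1 : y ((r : ℂ) • Q (T0 (Q x))) + y (R z) - y (T0 x) =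
          y (((-(3 * τ) : ℝ) : ℂ) • Q (T0 (Q x))) + (y.comp Q - y) (T0 (Q x)) +
            ((y.comp T0).comp Q - y.comp T0) x + y (R z) := by
        rw [_root_.sub_apply, _root_.sub_apply, ContinuousLinearMap.comp_apply,
          ContinuousLinearMap.comp_apply, ContinuousLinearMap.comp_apply,
          ContinuousLinearMap.comp_apply, map_smul, map_smul, hr, smul_eq_mul, smul_eq_mul]
        push_cast
        ring
      rw [e1]
      refine ((norm_add_le _ _).trans (add_le_add ((norm_add_le _ _).trans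
        (add_le_add ((norm_add_le _ _).trans (add_le_add h1 h2)) h3)) h4)).trans_eq ?_
      ring
    · have h7 := hMY y hy
      have h8 : 3 * τ * ‖y‖ ≤ τ * (3 * M) := by nlinarith
      linarith

section

variable {p : ℝ} {m : ℕ} {V W : Fin (m + 2) → E →L[ℂ] E} {A : E →L[ℂ] E} {δ w ε : ℝ}

lemma bg_near_x (h : Cp p V W) (hp : 0 < p) (hm : 0 < m) (hA : ‖A‖ ≤ 1) (hδ : 0 ≤ δ) (hw : w ≤ 1)
    (hδw : δ ≤ w) {x : E} (h1 : ‖W 0 x - x‖ ≤ ε) (h2 : ∀ a, a ≠ 0 → ‖W a x‖ ≤ ε)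
    (h3 : ‖V 0 (A x) - A x‖ ≤ ε) :
    ‖bg m V W A δ w x - A x‖ ≤ (2 * m + 3) * ε + δ * ‖x‖ := by
  have hε : 0 ≤ ε := (norm_nonneg _).trans h1
  have e0 : wt m δ w (0 : ℕ) = (δ : ℂ) := by unfold wt; rw [if_pos hm]
  have e1 : bg m V W A δ w x - A x = (V 0 (A (W 0 x - x)) + (V 0 (A x) - A x)) +
      ∑ a : Fin (m + 1), V a.succ (A (W a.succ x)) + (δ : ℂ) • V 1 (W 0 x) +
      ∑ a : Fin m, wt m δ w (a + 1) • V a.succ.succ (W a.succ.castSucc x) := by
    rw [bg_apply, Fin.sum_univ_succ (f := fun a : Fin (m + 2) => V a (A (W a x))),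
      Fin.sum_univ_succ (f := fun a : Fin (m + 1) => wt m δ w a • V a.succ (W a.castSucc x)),
      map_sub, map_sub]
    simp only [Fin.val_zero, Fin.castSucc_zero, Fin.succ_zero_eq_one, Fin.val_succ]
    rw [e0]
    abel
  rw [e1]
  have b1 : ‖V 0 (A (W 0 x - x)) + (V 0 (A x) - A x)‖ ≤ ε + ε :=
    (norm_add_le _ _).trans (add_le_add ((h.v_le hp 0 _).trans ((le_of_norm hA _).trans h1)) h3)
  have b2 : ‖∑ a : Fin (m + 1), V a.succ (A (W a.succ x))‖ ≤ (m + 1) * ε := by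
    refine (norm_sum_le _ _).trans ?_
    refine (sum_le_sum fun a _ => (h.v_le hp _ _).trans ((le_of_norm hA _).trans
      (h2 a.succ (Fin.succ_ne_zero a)))).trans_eq ?_
    rw [sum_const, card_univ, Fintype.card_fin, nsmul_eq_mul]
    push_cast
    ring
  have b3 : ‖(δ : ℂ) • V 1 (W 0 x)‖ ≤ δ * ‖x‖ := by
    rw [norm_smul, Complex.norm_real, Real.norm_of_nonneg hδ]
    exact mul_le_mul_of_nonneg_left ((h.v_le hp _ _).trans (h.w_le hp _ _)) hδ
  have b4 : ‖∑ a : Fin m, wt m δ w (a + 1) • V a.succ.succ (W a.succ.castSucc x)‖ ≤ m * ε := by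
    refine (norm_sum_le _ _).trans ?_
    have b5 : ∀ a : Fin m, ‖wt m δ w (a + 1) • V a.succ.succ (W a.succ.castSucc x)‖ ≤ ε := by
      intro a
      rw [norm_smul]
      have hne : (a.succ.castSucc : Fin (m + 2)) ≠ 0 := by
        intro h'
        have := congrArg Fin.val h'
        simp at this
      refine (mul_le_mul ((wt_norm_le hδ hδw _).trans hw) ((h.v_le hp _ _).trans (h2 _ hne))
        (norm_nonneg _) zero_le_one).trans_eq (one_mul _)
    refine (sum_le_sum fun a _ => b5 a).trans_eq ?_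
    rw [sum_const, card_univ, Fintype.card_fin, nsmul_eq_mul]
  refine ((norm_add_le _ _).trans (add_le_add ((norm_add_le _ _).trans
    (add_le_add ((norm_add_le _ _).trans (add_le_add b1 b2)) b3)) b4)).trans_eq ?_
  ring

lemma bg_near_y (h : Cp p V W) (hp : 0 < p) (hA : ‖A‖ ≤ 1) (hδ : 0 ≤ δ) (hw : w ≤ 1)
    (hδw : δ ≤ w) {y : StrongDual ℂ E} (h1 : ‖y.comp (V 0) - y‖ ≤ ε)
    (h2 : ∀ a, a ≠ 0 → ‖y.comp (V a)‖ ≤ ε) (h3 : ‖(y.comp A).comp (W 0) - y.comp A‖ ≤ ε) :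
    ‖y.comp (bg m V W A δ w) - y.comp A‖ ≤ (2 * m + 4) * ε := by
  have hε : 0 ≤ ε := (norm_nonneg _).trans h1
  refine ContinuousLinearMap.opNorm_le_bound _ (by positivity) fun x => ?_
  rw [_root_.sub_apply, ContinuousLinearMap.comp_apply, ContinuousLinearMap.comp_apply]
  have e1 : y (bg m V W A δ w x) - y (A x) = ((y.comp (V 0) - y) (A (W 0 x)) +
      ((y.comp A).comp (W 0) - y.comp A) x) +
      ∑ a : Fin (m + 1), y (V a.succ (A (W a.succ x))) +
      ∑ a : Fin (m + 1), y (wt m δ w a • V a.succ (W a.castSucc x)) := by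
    rw [bg_apply, map_add, map_sum, map_sum, Fin.sum_univ_succ (n := m + 1), _root_.sub_apply,
      _root_.sub_apply, ContinuousLinearMap.comp_apply,
          ContinuousLinearMap.comp_apply, ContinuousLinearMap.comp_apply,
          ContinuousLinearMap.comp_apply]
    ring
  rw [e1]
  have b1 : ‖(y.comp (V 0) - y) (A (W 0 x)) + ((y.comp A).comp (W 0) - y.comp A) x‖ ≤
      ε * ‖x‖ + ε * ‖x‖ := by
    refine (norm_add_le _ _).trans (add_le_add ?_ (ContinuousLinearMap.le_of_opNorm_le _ h3 _))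
    exact (ContinuousLinearMap.le_of_opNorm_le _ h1 _).trans (mul_le_mul_of_nonneg_left
          ((le_of_norm hA _).trans (h.w_le hp _ _)) hε)
  have b2 : ‖∑ a : Fin (m + 1), y (V a.succ (A (W a.succ x)))‖ ≤ (m + 1) * (ε * ‖x‖) := by
    refine (norm_sum_le _ _).trans ?_
    have b3 : ∀ a : Fin (m + 1), ‖y (V a.succ (A (W a.succ x)))‖ ≤ ε * ‖x‖ := fun a =>
      (ContinuousLinearMap.le_of_opNorm_le (y.comp (V a.succ)) (h2 _ (Fin.succ_ne_zero a))
        _).trans (mul_le_mul_of_nonneg_left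
          ((le_of_norm hA _).trans (h.w_le hp _ _)) hε)
    refine (sum_le_sum fun a _ => b3 a).trans_eq ?_
    rw [sum_const, card_univ, Fintype.card_fin, nsmul_eq_mul]
    push_cast
    ring
  have b4 : ‖∑ a : Fin (m + 1), y (wt m δ w a • V a.succ (W a.castSucc x))‖ ≤
      (m + 1) * (ε * ‖x‖) := by
    refine (norm_sum_le _ _).trans ?_
    have b3 : ∀ a : Fin (m + 1), ‖y (wt m δ w a • V a.succ (W a.castSucc x))‖ ≤ ε * ‖x‖ := by
      intro a
      rw [map_smul, norm_smul]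
      refine (mul_le_mul ((wt_norm_le hδ hδw _).trans hw)
        ((ContinuousLinearMap.le_of_opNorm_le (y.comp (V a.succ)) (h2 _ (Fin.succ_ne_zero a))
        _).trans (mul_le_mul_of_nonneg_left (h.w_le hp _ _) hε))
        (norm_nonneg _) zero_le_one).trans_eq (one_mul _)
    refine (sum_le_sum fun a _ => b3 a).trans_eq ?_
    rw [sum_const, card_univ, Fintype.card_fin, nsmul_eq_mul]
    push_cast
    ring
  refine ((norm_add_le _ _).trans (add_le_add ((norm_add_le _ _).trans (add_le_add b1 b2))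
    b4)).trans_eq ?_
  ring

lemma sum_cc {F G : Type*} [Zero F] [AddCommMonoid G] (u : F) (U : Fin m → F)
    (f : Fin (m + 2) → F → G) (hf : ∀ a, f a 0 = 0) :
    ∑ a : Fin (m + 2), f a (cc u U a) = f 0 u + ∑ b : Fin m, f b.succ.castSucc (U b) := by
  rw [Fin.sum_univ_castSucc, Fin.sum_univ_succ]
  have e1 : f (Fin.last (m + 1)) (cc u U (Fin.last (m + 1) : Fin (m + 2))) = 0 := by
    rw [Fin.val_last, cc_last, hf]
  rw [e1, add_zero]
  congr 1
  refine sum_congr rfl fun b _ => ?_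
  have e2 : cc u U (b.succ.castSucc : Fin (m + 2)) = U b := by
    rw [Fin.val_castSucc, Fin.val_succ, cc_succ]
  rw [e2]

lemma xx_near (h : Cp p V W) (hp : 0 < p) {x : E} {U : Fin m → E} {ρ : ℝ}
    (hU : ∑ b, ‖U b‖ ^ p ≤ ρ) (h1 : ‖V 0 x - x‖ ≤ ε) :
    ‖xx V x U - x‖ ≤ ρ ^ (1 / p) + ε := by
  have hρ : 0 ≤ ρ := le_trans (sum_nonneg fun _ _ => by positivity) hU
  have e1 : xx V x U = V 0 x + xx V 0 U := by
    unfold xx
    rw [sum_cc x U (fun a z => V a z) fun a => map_zero _,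
      sum_cc 0 U (fun a z => V a z) fun a => map_zero _, map_zero, zero_add]
  have b1 : ‖xx V 0 U‖ ≤ ρ ^ (1 / p) := by
    have h2 : ‖xx V 0 U‖ ^ p ≤ ρ := by
      refine (h.hv fun a => cc 0 U a).trans ?_
      rw [sum_cc 0 U (fun a z => ‖z‖ ^ p) fun a => by rw [norm_zero, Real.zero_rpow hp.ne'],
        norm_zero, Real.zero_rpow hp.ne', zero_add]
      exact hU
    have h4 := Real.rpow_le_rpow (by positivity) h2 (show 0 ≤ 1 / p by positivity)
    rwa [← Real.rpow_mul (norm_nonneg _), mul_one_div_cancel hp.ne', Real.rpow_one] at h4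
  have e2 : xx V x U - x = xx V 0 U + (V 0 x - x) := by rw [e1]; abel
  rw [e2]
  exact (norm_add_le _ _).trans (add_le_add b1 h1)

lemma yy_eq (y : StrongDual ℂ E) (U : Fin m → StrongDual ℂ E) (z : E) :
    yy W y U z = y (W 0 z) + ∑ b : Fin m, U b (W b.succ.castSucc z) := by
  rw [yy_apply, sum_cc y U (fun a f => f (W a z)) fun a => _root_.zero_apply _]

lemma yy_near {q : ℝ} (hpq : p.HolderConjugate q) (h : Cp p V W) {y : StrongDual ℂ E}
    {U : Fin m → StrongDual ℂ E} {ρ : ℝ}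
    (hU : ∑ b, ‖U b‖ ^ q ≤ ρ) (h1 : ‖y.comp (W 0) - y‖ ≤ ε) :
    ‖yy W y U - y‖ ≤ ρ ^ (1 / q) + ε := by
  have hp := hpq.pos
  have hq := hpq.symm.pos
  have hρ : 0 ≤ ρ := le_trans (sum_nonneg fun _ _ => by positivity) hU
  have hε : 0 ≤ ε := (norm_nonneg _).trans h1
  refine ContinuousLinearMap.opNorm_le_bound _ (by positivity) fun z => ?_
  have e1 : (yy W y U - y) z = ∑ b : Fin m, U b (W b.succ.castSucc z) +
      (y.comp (W 0) - y) z := by
    rw [_root_.sub_apply, yy_eq, _root_.sub_apply, ContinuousLinearMap.comp_apply]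
    ring
  rw [e1, add_mul]
  refine (norm_add_le _ _).trans (add_le_add ?_ (ContinuousLinearMap.le_of_opNorm_le _ h1 _))
  refine (norm_sum_le _ _).trans ?_
  refine (sum_le_sum fun b _ => (U b).le_opNorm _).trans ?_
  refine (Real.inner_le_Lp_mul_Lq_of_nonneg univ hpq.symm (fun _ _ => norm_nonneg _)
    (fun _ _ => norm_nonneg _)).trans ?_
  refine mul_le_mul (Real.rpow_le_rpow (sum_nonneg fun _ _ => by positivity) hU (by positivity))
    ?_ (by positivity) (by positivity)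
  have h2 : ∑ b : Fin m, ‖W b.succ.castSucc z‖ ^ p ≤ ‖z‖ ^ p := by
    refine le_trans ?_ (h.hw z)
    rw [Fin.sum_univ_castSucc (f := fun a => ‖W a z‖ ^ p),
      Fin.sum_univ_succ (f := fun a : Fin (m + 1) => ‖W a.castSucc z‖ ^ p)]
    have h3 : 0 ≤ ‖W (Fin.castSucc 0) z‖ ^ p := by positivity
    have h4 : 0 ≤ ‖W (Fin.last (m + 1)) z‖ ^ p := by positivity
    linarith
  have h4 := Real.rpow_le_rpow (sum_nonneg fun _ _ => by positivity) h2
    (show 0 ≤ 1 / p by positivity)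
  rwa [← Real.rpow_mul (norm_nonneg _), mul_one_div_cancel hp.ne', Real.rpow_one] at h4

lemma yy_near_x {y : StrongDual ℂ E} {U : Fin m → StrongDual ℂ E} {z : E}
    (h1 : ‖W 0 z - z‖ ≤ ε) (h2 : ∀ a, a ≠ 0 → ‖W a z‖ ≤ ε) :
    ‖yy W y U z - y z‖ ≤ (‖y‖ + ∑ b, ‖U b‖) * ε := by
  have e1 : yy W y U z - y z = y (W 0 z - z) + ∑ b : Fin m, U b (W b.succ.castSucc z) := by
    rw [yy_eq, map_sub]
    ring
  rw [e1, add_mul]
  refine (norm_add_le _ _).trans (add_le_add ((y.le_opNorm _).trans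
    (mul_le_mul_of_nonneg_left h1 (norm_nonneg _))) ?_)
  rw [sum_mul]
  refine (norm_sum_le _ _).trans (sum_le_sum fun b _ => ((U b).le_opNorm _).trans
    (mul_le_mul_of_nonneg_left (h2 _ ?_) (norm_nonneg _)))
  intro h'
  have := congrArg Fin.val h'
  simp at this

end

end Pool.Agent.K4H43.TR
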