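import Pool.Agent.K4H43.TR.Rep

/-!
# Operators whose inner derivation is injective on its range, up to the kernel
-/

set_option autoImplicit false
open Finset Filter Topology

namespace Pool.Agent.K4H43.TR
open Pool.Agent.Y280

section ring

variable {R : Type*} [Ring R] [Algebra ℂ R]

/-- If `[A, [A, B]] = 0` then `[A, B] = 0`. -/
def PR (A : R) : Prop := ∀ B : R, A * (A * B - B * A) = (A * B - B * A) * A → A * B - B * A = 0

/-- The blocks of an element which commutes with `A ⊗ 1 + 1 ⊗ J`. -/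
lemma block_structP {A : R} (hP : PR A) (n : ℕ)
    (w : ℕ → ℂ) (Bk : ℕ → ℕ → R)
    (hrel : ∀ a ≤ n, ∀ b ≤ n, A * Bk a b - Bk a b * A =
      (if b < n then w b • Bk a (b + 1) else 0) - (if 0 < a then w (a - 1) • Bk (a - 1) b else 0)) :
    ∀ a ≤ n, ∀ b ≤ n, A * Bk a b - Bk a b * A = 0 := by
  intro a
  induction a with
  | zero =>
    intro ha
    have key : ∀ c b, b + c = n → A * Bk 0 b - Bk 0 b * A = 0 := by
      intro c
      induction c with
      | zero =>
        intro b hb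
        have h1 := hrel 0 ha b (by omega)
        rw [if_neg (by omega), if_neg (by omega), sub_zero] at h1
        exact h1
      | succ c ih =>
        intro b hb
        have h1 := hrel 0 ha b (by omega)
        rw [if_pos (by omega), if_neg (by omega), sub_zero] at h1
        apply hP
        have h2 := ih (b + 1) (by omega)
        rw [h1, mul_smul_comm, smul_mul_assoc, sub_eq_zero.1 h2]
    intro b hb
    exact key (n - b) b (by omega)
  | succ a iha =>
    intro ha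
    have hprev := iha (by omega)
    have key : ∀ c b, b + c = n → A * Bk (a + 1) b - Bk (a + 1) b * A = 0 := by
      intro c
      induction c with
      | zero =>
        intro b hb
        have h1 := hrel (a + 1) ha b (by omega)
        rw [if_neg (by omega), if_pos (by omega), zero_sub, Nat.add_sub_cancel] at h1
        apply hP
        rw [h1, mul_neg, neg_mul, mul_smul_comm, smul_mul_assoc,
          sub_eq_zero.1 (hprev b (by omega))]
      | succ c ih =>
        intro b hb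
        have h1 := hrel (a + 1) ha b (by omega)
        rw [if_pos (by omega), if_pos (by omega), Nat.add_sub_cancel] at h1
        apply hP
        rw [h1, mul_sub, sub_mul, mul_smul_comm, smul_mul_assoc, mul_smul_comm, smul_mul_assoc,
          sub_eq_zero.1 (hprev b (by omega)), sub_eq_zero.1 (ih (b + 1) (by omega))]
    intro b hb
    exact key (n - b) b (by omega)

/-- The structure of the blocks for the weights `δ, …, δ, w`. -/
lemma block_toeplitzP {A : R} (hP : PR A) (m : ℕ)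
    {δ w : ℝ} (hδ : 0 < δ) (hw : 0 < w) (Bk : ℕ → ℕ → R)
    (hrel : ∀ a ≤ m + 1, ∀ b ≤ m + 1, A * Bk a b - Bk a b * A =
      (if b < m + 1 then wt m δ w b • Bk a (b + 1) else 0) -
        (if 0 < a then wt m δ w (a - 1) • Bk (a - 1) b else 0)) :
    A * Bk 0 0 = Bk 0 0 * A ∧ (∀ a ≤ m, Bk a a = Bk 0 0) ∧
      (∀ a ≤ m, ∀ b ≤ m, a ≠ b → ∃ a' ≤ m + 1, ∃ b' ≤ m + 1, ∃ c : ℂ, ‖c‖ ≤ δ / w ∧
        Bk a b = c • Bk a' b') := by
  have hD := block_structP hP (m + 1) (wt m δ w) Bk hrel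
  have hc1 : ∀ a ≤ m, ∀ b ≤ m, wt m δ w b • Bk (a + 1) (b + 1) = wt m δ w a • Bk a b := by
    intro a ha b hb
    have h1 := hrel (a + 1) (by omega) b (by omega)
    rw [hD (a + 1) (by omega) b (by omega), if_pos (by omega), if_pos (by omega),
      Nat.add_sub_cancel] at h1
    exact sub_eq_zero.1 h1.symm
  have hc2 : ∀ b ≤ m, Bk 0 (b + 1) = 0 := by
    intro b hb
    have h1 := hrel 0 (by omega) b (by omega)
    rw [hD 0 (by omega) b (by omega), if_pos (by omega), if_neg (by omega), sub_zero] at h1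
    exact (smul_eq_zero.1 h1.symm).resolve_left (wt_ne hδ hw b)
  have hstep : ∀ a < m, ∀ b < m, Bk (a + 1) (b + 1) = Bk a b := by
    intro a ha b hb
    have h1 := hc1 a ha.le b hb.le
    have e : wt m δ w a = wt m δ w b := by
      unfold wt
      rw [if_pos ha, if_pos hb]
    rw [e] at h1
    exact smul_right_injective _ (wt_ne hδ hw b) h1
  have hup : ∀ a ≤ m, ∀ b ≤ m, a < b → Bk a b = 0 := by
    intro a
    induction a with
    | zero =>
      intro _ b hb hab
      obtain ⟨c, rfl⟩ : ∃ c, b = c + 1 := ⟨b - 1, by omega⟩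
      exact hc2 c (by omega)
    | succ a ih =>
      intro ha b hb hab
      obtain ⟨c, rfl⟩ : ∃ c, b = c + 1 := ⟨b - 1, by omega⟩
      rw [hstep a (by omega) c (by omega)]
      exact ih (by omega) c (by omega) (by omega)
  refine ⟨sub_eq_zero.1 (hD 0 (by omega) 0 (by omega)), ?_, ?_⟩
  · intro a
    induction a with
    | zero => intro _; rfl
    | succ a ih =>
      intro ha
      rw [hstep a (by omega) a (by omega)]
      exact ih (by omega)
  · intro a ha b hb hab
    rcases Nat.lt_or_ge a b with h | h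
    · refine ⟨0, by omega, 0, by omega, 0, ?_, ?_⟩
      · rw [norm_zero]; positivity
      · rw [zero_smul]; exact hup a ha b hb h
    · -- shift down to the last row
      have hsh : ∀ c, a + c ≤ m → Bk (a + c) (b + c) = Bk a b := by
        intro c
        induction c with
        | zero => intro _; rfl
        | succ c ih =>
          intro hc
          rw [← ih (by omega)]
          exact hstep (a + c) (by omega) (b + c) (by omega)
      have h1 := hsh (m - a) (by omega)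
      rw [show a + (m - a) = m by omega] at h1
      have h2 := hc1 m le_rfl (b + (m - a)) (by omega)
      rw [h1] at h2
      have e1 : wt m δ w m = (w : ℂ) := by unfold wt; rw [if_neg (lt_irrefl m)]
      have e2 : wt m δ w (b + (m - a)) = (δ : ℂ) := by unfold wt; rw [if_pos (by omega)]
      rw [e1, e2] at h2
      have hwC : (w : ℂ) ≠ 0 := by exact_mod_cast hw.ne'
      refine ⟨m + 1, le_rfl, b + (m - a) + 1, by omega, (δ : ℂ) / w, ?_, ?_⟩
      · rw [norm_div, Complex.norm_real, Complex.norm_real, Real.norm_of_nonneg hδ.le,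
          Real.norm_of_nonneg hw.le]
      · rw [div_eq_inv_mul, mul_smul, h2, smul_smul, inv_mul_cancel₀ hwC, one_smul]

end ring

variable {E : Type*} [NormedAddCommGroup E] [NormedSpace ℂ E]

/-- Operators similar to multiples of isometries have the property. -/
theorem PR_of_growth {T : E →L[ℂ] E} {c C w : ℝ} (hc : 0 < c) (hw : 0 < w)
    (hlow : ∀ (n : ℕ) (x : E), c * w ^ n * ‖x‖ ≤ ‖(T ^ n) x‖)
    (hup : ∀ (n : ℕ) (x : E), ‖(T ^ n) x‖ ≤ C * w ^ n * ‖x‖) : PR T := by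
  intro S hS
  set D := T * S - S * T with hD
  ext x
  show D x = 0
  have hC : 0 ≤ C ∨ ‖x‖ = 0 := by
    by_contra hcon
    push Not at hcon
    have h1 := hup 0 x
    rw [pow_zero, pow_zero, mul_one, one_apply_eq_self] at h1
    have h2 : 0 < ‖x‖ := lt_of_le_of_ne (norm_nonneg _) (Ne.symm hcon.2)
    nlinarith
  rcases hC with hC | hx
  swap
  · rw [norm_eq_zero.1 hx, map_zero]
  set K : ℝ := 2 * C * w * ‖S‖ * ‖x‖ with hK
  have hK0 : 0 ≤ K := by positivity
  have key : ∀ m : ℕ, ((m : ℝ) + 1) * (c * ‖D x‖) ≤ K := by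
    intro m
    have h1 := comm_pow (A := T) (B := S) hS (m + 1)
    rw [Nat.add_sub_cancel] at h1
    have h2 : (T ^ (m + 1) * S - S * T ^ (m + 1)) x =
        (((m + 1 : ℕ) : ℂ) • (T ^ m * (T * S - S * T))) x := by rw [h1]
    rw [_root_.sub_apply, mul_apply_eq_comp, mul_apply_eq_comp, _root_.smul_apply,
      mul_apply_eq_comp, ← hD] at h2
    have h3 : ‖(((m + 1 : ℕ)) : ℂ) • (T ^ m) (D x)‖ ≤
        C * w ^ (m + 1) * (‖S‖ * ‖x‖) + ‖S‖ * (C * w ^ (m + 1) * ‖x‖) := by
      rw [← h2]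
      refine (norm_sub_le _ _).trans (add_le_add ?_ ?_)
      · refine (hup _ _).trans (mul_le_mul_of_nonneg_left (S.le_opNorm x) (by positivity))
      · exact (S.le_opNorm _).trans (mul_le_mul_of_nonneg_left (hup _ _) (norm_nonneg _))
    rw [norm_smul, Complex.norm_natCast] at h3
    have h4 := hlow m (D x)
    have h5 : (((m + 1 : ℕ)) : ℝ) * (c * w ^ m * ‖D x‖) ≤
        C * w ^ (m + 1) * (‖S‖ * ‖x‖) + ‖S‖ * (C * w ^ (m + 1) * ‖x‖) :=
      (mul_le_mul_of_nonneg_left h4 (Nat.cast_nonneg _)).trans h3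
    have hwm : 0 < w ^ m := by positivity
    have e1 : (((m + 1 : ℕ)) : ℝ) * (c * w ^ m * ‖D x‖) =
        w ^ m * (((m : ℝ) + 1) * (c * ‖D x‖)) := by push_cast; ring
    have e2 : C * w ^ (m + 1) * (‖S‖ * ‖x‖) + ‖S‖ * (C * w ^ (m + 1) * ‖x‖) = w ^ m * K := by
      rw [hK, pow_succ]; ring
    rw [e1, e2] at h5
    exact le_of_mul_le_mul_left h5 hwm
  by_contra hne
  have h0 : 0 < c * ‖D x‖ := mul_pos hc (norm_pos_iff.2 hne)
  obtain ⟨m, hm⟩ := exists_nat_gt (K / (c * ‖D x‖))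
  rw [div_lt_iff₀ h0] at hm
  have := key m
  nlinarith

/-- The data of a shift with a first block. -/
structure Chain (p : ℝ) (Q R : E →L[ℂ] E) : Prop where
  qq : ∀ x, Q (Q x) = Q x
  qr : ∀ x, Q (R x) = 0
  iso : ∀ x, ‖R x‖ = ‖x‖
  ps : ∀ x, ‖x‖ ^ p = ‖Q x‖ ^ p + ‖x - Q x‖ ^ p

/-- The operator `B` on the first block, coupled to the shift. -/
noncomputable def T1 (Q R B : E →L[ℂ] E) (δ w : ℝ) : E →L[ℂ] E :=
  B + R * ((δ : ℂ) • Q + (w : ℂ) • (1 - Q))

namespace Chain

variable {p : ℝ} {Q R B : E →L[ℂ] E} {δ w r : ℝ}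

lemma q_le (h : Chain p Q R) (hp : 0 < p) (x : E) : ‖Q x‖ ≤ ‖x‖ := by
  have h1 := h.ps x
  have h2 : 0 ≤ ‖x - Q x‖ ^ p := by positivity
  exact (Real.rpow_le_rpow_iff (norm_nonneg _) (norm_nonneg _) hp).1 (by linarith)

lemma qc_le (h : Chain p Q R) (hp : 0 < p) (x : E) : ‖x - Q x‖ ≤ ‖x‖ := by
  have h1 := h.ps x
  have h2 : 0 ≤ ‖Q x‖ ^ p := by positivity
  exact (Real.rpow_le_rpow_iff (norm_nonneg _) (norm_nonneg _) hp).1 (by linarith)

lemma T1_apply (x : E) : T1 Q R B δ w x = B x + R ((δ : ℂ) • Q x + (w : ℂ) • (x - Q x)) := by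
  unfold T1
  rw [_root_.add_apply, mul_apply_eq_comp, _root_.add_apply, _root_.smul_apply,
    _root_.smul_apply, _root_.sub_apply, one_apply_eq_self]

lemma Q_T1 (h : Chain p Q R) (hB : ∀ x, Q (B x) = B x) (x : E) :
    Q (T1 Q R B δ w x) = B x := by
  rw [T1_apply, map_add, hB, h.qr, add_zero]

lemma Qc_T1 (h : Chain p Q R) (hB : ∀ x, Q (B x) = B x) (x : E) :
    T1 Q R B δ w x - Q (T1 Q R B δ w x) = R ((δ : ℂ) • Q x + (w : ℂ) • (x - Q x)) := by
  rw [h.Q_T1 hB, T1_apply]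
  abel

lemma mix_Q (h : Chain p Q R) (x : E) :
    Q ((δ : ℂ) • Q x + (w : ℂ) • (x - Q x)) = (δ : ℂ) • Q x := by
  rw [map_add, map_smul, map_smul, map_sub, h.qq, sub_self, smul_zero, add_zero]

lemma mix_Qc (h : Chain p Q R) (x : E) :
    ((δ : ℂ) • Q x + (w : ℂ) • (x - Q x)) - Q ((δ : ℂ) • Q x + (w : ℂ) • (x - Q x)) =
      (w : ℂ) • (x - Q x) := by
  rw [h.mix_Q]
  abel

lemma norm_T1 (h : Chain p Q R) (hp : 1 ≤ p) (hB : ∀ x, Q (B x) = B x)
    (hBr : ∀ x, ‖B x‖ ≤ r * ‖Q x‖) (hr : 0 ≤ r) (hδ : 0 ≤ δ) (hw : 0 ≤ w) {s : ℝ}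
    (hs : r + δ ≤ s) (hws : w ≤ s) : ‖T1 Q R B δ w‖ ≤ s := by
  have hp0 : 0 < p := by linarith
  have hs0 : 0 ≤ s := hw.trans hws
  refine ContinuousLinearMap.opNorm_le_bound _ hs0 fun x => ?_
  have h1 : ‖T1 Q R B δ w x‖ ^ p ≤ (s * ‖x‖) ^ p := by
    rw [h.ps (T1 Q R B δ w x), h.Qc_T1 hB, h.Q_T1 hB, h.iso,
      h.ps ((δ : ℂ) • Q x + (w : ℂ) • (x - Q x)), h.mix_Qc, h.mix_Q, norm_smul, norm_smul,
      Complex.norm_real, Complex.norm_real, Real.norm_of_nonneg hδ, Real.norm_of_nonneg hw,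
      Real.mul_rpow hδ (norm_nonneg _), Real.mul_rpow hw (norm_nonneg _),
      Real.mul_rpow hs0 (norm_nonneg _), h.ps x, mul_add]
    have h2 : ‖B x‖ ^ p ≤ r ^ p * ‖Q x‖ ^ p := by
      rw [← Real.mul_rpow hr (norm_nonneg _)]
      exact Real.rpow_le_rpow (norm_nonneg _) (hBr x) hp0.le
    have h3 : r ^ p + δ ^ p ≤ s ^ p :=
      (Real.add_rpow_le_rpow_add hr hδ hp).trans (Real.rpow_le_rpow (by positivity) hs hp0.le)
    have h4 : w ^ p ≤ s ^ p := Real.rpow_le_rpow hw hws hp0.le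
    have h5 := mul_le_mul_of_nonneg_right h3 (show 0 ≤ ‖Q x‖ ^ p by positivity)
    have h6 := mul_le_mul_of_nonneg_right h4 (show 0 ≤ ‖x - Q x‖ ^ p by positivity)
    linarith
  exact (Real.rpow_le_rpow_iff (norm_nonneg _) (by positivity) hp0).1 h1

/-- The operator has the property. -/
theorem PR_T1 (h : Chain p Q R) (hp : 1 ≤ p) (hB : ∀ x, Q (B x) = B x)
    (hBr : ∀ x, ‖B x‖ ≤ r * ‖Q x‖) (hr : 0 ≤ r) (hrw : r < w) (hδ : 0 < δ) (hδw : δ ≤ w) :
    PR (T1 Q R B δ w) := by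
  have hp0 : 0 < p := by linarith
  have hw : 0 < w := hδ.trans_le hδw
  set T := T1 Q R B δ w with hT
  have hQT : ∀ x, ‖Q (T x)‖ ≤ r * ‖Q x‖ := fun x => by
    rw [hT, h.Q_T1 hB]; exact hBr x
  have hup1 : ∀ x, ‖T x - Q (T x)‖ ≤ δ * ‖Q x‖ + w * ‖x - Q x‖ := fun x => by
    rw [hT, h.Qc_T1 hB, h.iso]
    refine (norm_add_le _ _).trans_eq ?_
    rw [norm_smul, norm_smul, Complex.norm_real, Complex.norm_real, Real.norm_of_nonneg hδ.le,
      Real.norm_of_nonneg hw.le]
  have hlow1 : ∀ x, w * ‖x - Q x‖ ≤ ‖T x - Q (T x)‖ := fun x => by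
    rw [hT, h.Qc_T1 hB, h.iso]
    have h1 := h.qc_le hp0 ((δ : ℂ) • Q x + (w : ℂ) • (x - Q x))
    rwa [h.mix_Qc, norm_smul, Complex.norm_real, Real.norm_of_nonneg hw.le] at h1
  have hlow2 : ∀ x, δ * ‖Q x‖ ≤ ‖T x - Q (T x)‖ := fun x => by
    rw [hT, h.Qc_T1 hB, h.iso]
    have h1 := h.q_le hp0 ((δ : ℂ) • Q x + (w : ℂ) • (x - Q x))
    rwa [h.mix_Q, norm_smul, Complex.norm_real, Real.norm_of_nonneg hδ.le] at h1
  set κ : ℝ := δ / (w - r) with hκ
  have hwr : 0 < w - r := by linarith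
  have hκ0 : 0 ≤ κ := by positivity
  have hκe : κ * (w - r) = δ := by rw [hκ]; field_simp
  have hpow : ∀ (n : ℕ) (x : E), (T ^ (n + 1)) x = T ((T ^ n) x) := fun n x => by
    rw [pow_succ', mul_apply_eq_comp]
  have ha : ∀ (n : ℕ) (x : E), ‖Q ((T ^ n) x)‖ ≤ r ^ n * ‖Q x‖ := by
    intro n x
    induction n with
    | zero => rw [pow_zero, pow_zero, one_mul, one_apply_eq_self]
    | succ n ih =>
      rw [hpow, pow_succ', mul_assoc]
      exact (hQT _).trans (mul_le_mul_of_nonneg_left ih hr)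
  have hb : ∀ (n : ℕ) (x : E), ‖(T ^ n) x - Q ((T ^ n) x)‖ ≤
      w ^ n * (‖x - Q x‖ + κ * ‖Q x‖) - κ * (r ^ n * ‖Q x‖) := by
    intro n x
    induction n with
    | zero =>
      rw [pow_zero, pow_zero, pow_zero, one_mul, one_mul, one_apply_eq_self]
      linarith
    | succ n ih =>
      rw [hpow]
      refine (hup1 _).trans ?_
      have h1 := mul_le_mul_of_nonneg_left (ha n x) hδ.le
      have h2 := mul_le_mul_of_nonneg_left ih hw.le
      refine (add_le_add h1 h2).trans_eq ?_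
      rw [pow_succ, pow_succ, ← hκe]
      ring
  apply PR_of_growth (c := δ / (2 * w)) (C := 2 + κ) (w := w) (by positivity) hw
  · intro n x
    have hx : ‖x‖ ≤ ‖Q x‖ + ‖x - Q x‖ := by
      have := norm_add_le (Q x) (x - Q x)
      rwa [add_sub_cancel] at this
    cases n with
    | zero =>
      rw [pow_zero, pow_zero, one_apply_eq_self, mul_one]
      refine mul_le_of_le_one_left (norm_nonneg _) ?_
      rw [div_le_one (by positivity)]
      linarith
    | succ n =>
      have h1 : ∀ m : ℕ, w ^ m * ‖T x - Q (T x)‖ ≤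
          ‖(T ^ (m + 1)) x - Q ((T ^ (m + 1)) x)‖ := by
        intro m
        induction m with
        | zero => rw [pow_zero, one_mul, zero_add, pow_one]
        | succ m ih =>
          rw [hpow (m + 1)]
          refine le_trans ?_ (hlow1 _)
          rw [pow_succ', mul_assoc]
          exact mul_le_mul_of_nonneg_left ih hw.le
      have h2 : δ / 2 * ‖x‖ ≤ ‖T x - Q (T x)‖ := by
        have h3 := hlow1 x
        have h4 := hlow2 x
        have h5 : δ * ‖x - Q x‖ ≤ w * ‖x - Q x‖ := mul_le_mul_of_nonneg_right hδw (norm_nonneg _)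
        have h6 := mul_le_mul_of_nonneg_left hx hδ.le
        linarith
      have h3 := mul_le_mul_of_nonneg_left h2 (show 0 ≤ w ^ n by positivity)
      have h4 := h.qc_le hp0 ((T ^ (n + 1)) x)
      have e1 : δ / (2 * w) * w ^ (n + 1) * ‖x‖ = w ^ n * (δ / 2 * ‖x‖) := by
        rw [pow_succ]
        field_simp
      rw [e1]
      exact h3.trans ((h1 n).trans h4)
  · intro n x
    have h1 := ha n x
    have h2 := hb n x
    have h3 : ‖(T ^ n) x‖ ≤ ‖Q ((T ^ n) x)‖ + ‖(T ^ n) x - Q ((T ^ n) x)‖ := by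
      have := norm_add_le (Q ((T ^ n) x)) ((T ^ n) x - Q ((T ^ n) x))
      rwa [add_sub_cancel] at this
    have h4 : r ^ n ≤ w ^ n := pow_le_pow_left₀ hr hrw.le n
    have h5 := h.q_le hp0 x
    have h6 := h.qc_le hp0 x
    have h7 : 0 ≤ κ * (r ^ n * ‖Q x‖) := by positivity
    have h8 : r ^ n * ‖Q x‖ ≤ w ^ n * ‖x‖ :=
      mul_le_mul h4 h5 (norm_nonneg _) (by positivity)
    have h9 : w ^ n * (‖x - Q x‖ + κ * ‖Q x‖) ≤ w ^ n * (‖x‖ + κ * ‖x‖) := by
      refine mul_le_mul_of_nonneg_left ?_ (by positivity)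
      exact add_le_add h6 (mul_le_mul_of_nonneg_left h5 hκ0)
    have e1 : (2 + κ) * w ^ n * ‖x‖ = w ^ n * ‖x‖ + w ^ n * (‖x‖ + κ * ‖x‖) := by ring
    rw [e1]
    linarith

end Chain

end Pool.Agent.K4H43.TR
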