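import Pool.Agent.Y280.HTyp
import Pool.Agent.Y280.HLp

/-!
# Reflexive spaces: limits of operators, semicontinuity
-/

set_option autoImplicit false
open Finset Filter Topology

namespace Pool.Agent.K4H43.TR
open Pool.Agent.Y280

variable {E : Type*} [NormedAddCommGroup E] [NormedSpace ℂ E]

/-- Every functional on the dual is an evaluation. -/
def Refl (E : Type*) [NormedAddCommGroup E] [NormedSpace ℂ E] : Prop :=
  ∀ φ : StrongDual ℂ (StrongDual ℂ E), ∃ x : E, ∀ y : StrongDual ℂ E, φ y = y x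

lemma dual_ext {u v : E} (h : ∀ y : StrongDual ℂ E, y u = y v) : u = v := by
  by_contra hne
  have h0 : u - v ≠ 0 := sub_ne_zero.2 hne
  obtain ⟨y, hy, hy'⟩ := exists_dual_vector ℂ (u - v) (norm_ne_zero_iff.2 h0)
  rw [map_sub, h y, sub_self] at hy'
  exact h0 (norm_eq_zero.1 (Complex.ofReal_eq_zero.1 hy'.symm))

lemma norm_le_of_dual {u : E} {c : ℝ} (hc : 0 ≤ c)
    (h : ∀ y : StrongDual ℂ E, ‖y u‖ ≤ c * ‖y‖) : ‖u‖ ≤ c := by
  by_cases h0 : u = 0
  · rw [h0, norm_zero]; exact hc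
  · obtain ⟨y, hy, hy'⟩ := exists_dual_vector ℂ u (norm_ne_zero_iff.2 h0)
    have h1 := h y
    rw [hy, mul_one, hy'] at h1
    have e : ‖((‖u‖ : ℝ) : ℂ)‖ = ‖u‖ := by rw [Complex.norm_real, norm_norm]
    exact e ▸ h1

/-- Bilinear forms are given by operators. -/
theorem exists_op (hR : Refl E) (b : E → StrongDual ℂ E → ℂ) {s : ℝ} (hs : 0 ≤ s)
    (hb1 : ∀ u u' y, b (u + u') y = b u y + b u' y) (hb2 : ∀ (c : ℂ) u y, b (c • u) y = c * b u y)
    (hb3 : ∀ u y y', b u (y + y') = b u y + b u y') (hb4 : ∀ (c : ℂ) u y, b u (c • y) = c * b u y)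
    (hb : ∀ u y, ‖b u y‖ ≤ s * ‖u‖ * ‖y‖) :
    ∃ B : E →L[ℂ] E, ‖B‖ ≤ s ∧ ∀ u y, y (B u) = b u y := by
  have h1 : ∀ u, ∃ x : E, ∀ y : StrongDual ℂ E, b u y = y x := by
    intro u
    let φ : StrongDual ℂ (StrongDual ℂ E) := LinearMap.mkContinuous
      { toFun := fun y => b u y
        map_add' := hb3 u
        map_smul' := fun c y => hb4 c u y } (s * ‖u‖) (hb u)
    exact hR φ
  choose F hF using h1
  have hn : ∀ u, ‖F u‖ ≤ s * ‖u‖ := by
    intro u
    apply norm_le_of_dual (by positivity)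
    intro y
    rw [← hF]
    exact hb u y
  let B : E →L[ℂ] E := LinearMap.mkContinuous
    { toFun := F
      map_add' := fun u u' => dual_ext fun y => by
        rw [map_add, ← hF, ← hF, ← hF, hb1]
      map_smul' := fun c u => dual_ext fun y => by
        rw [RingHom.id_apply, map_smul, smul_eq_mul, ← hF, ← hF, hb2] } s hn
  refine ⟨B, LinearMap.mkContinuous_norm_le _ hs _, fun u y => ?_⟩
  show y (F u) = b u y
  rw [hF]

/-- Bounded sequences of operators have weak limits along ultrafilters. -/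
theorem exists_wlim (hR : Refl E) (𝒰 : Ultrafilter ℕ) (S : ℕ → E →L[ℂ] E) (hS : ∀ n, ‖S n‖ ≤ 1) :
    ∃ B : E →L[ℂ] E, ‖B‖ ≤ 1 ∧ ∀ (u : E) (y : StrongDual ℂ E),
      Tendsto (fun n => y (S n u)) 𝒰 (𝓝 (y (B u))) := by
  have hlim : ∀ (u : E) (y : StrongDual ℂ E), ∃ z ∈ Metric.closedBall (0 : ℂ) (‖u‖ * ‖y‖),
      Tendsto (fun n => y (S n u)) 𝒰 (𝓝 z) := by
    intro u y
    have hK := isCompact_closedBall (0 : ℂ) (‖u‖ * ‖y‖)
    have hmem : ∀ n, y (S n u) ∈ Metric.closedBall (0 : ℂ) (‖u‖ * ‖y‖) := by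
      intro n
      rw [mem_closedBall_zero_iff, mul_comm]
      exact norm_pair_le (hS n) u y
    have h1 := isCompact_iff_ultrafilter_le_nhds.1 hK (𝒰.map fun n => y (S n u)) (by
      rw [le_principal_iff]
      exact Filter.mem_map.2 (Filter.univ_mem' hmem))
    obtain ⟨z, hz, hz'⟩ := h1
    exact ⟨z, hz, hz'⟩
  choose b hb hbl using hlim
  have huniq : ∀ {a : ℕ → ℂ} {z z' : ℂ}, Tendsto a 𝒰 (𝓝 z) → Tendsto a 𝒰 (𝓝 z') → z = z' :=
    fun h h' => tendsto_nhds_unique h h'
  obtain ⟨B, hB, hB'⟩ := exists_op hR b zero_le_one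
    (fun u u' y => huniq (hbl _ _) (by
      refine ((hbl u y).add (hbl u' y)).congr fun n => ?_
      rw [map_add, map_add]))
    (fun c u y => huniq (hbl _ _) (by
      refine ((hbl u y).const_mul c).congr fun n => ?_
      rw [map_smul, map_smul, smul_eq_mul]))
    (fun u y y' => huniq (hbl _ _) (by
      refine ((hbl u y).add (hbl u y')).congr fun n => ?_
      rw [_root_.add_apply]))
    (fun c u y => huniq (hbl _ _) (by
      refine ((hbl u y).const_mul c).congr fun n => ?_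
      rw [_root_.smul_apply, smul_eq_mul]))
    (fun u y => by
      rw [one_mul]
      exact mem_closedBall_zero_iff.1 (hb u y))
  exact ⟨B, hB, fun u y => by rw [hB']; exact hbl u y⟩

/-- **Semicontinuity at every operator of a reflexive space.** -/
theorem mem_interior_HS_refl (hR : Refl E) {W : Type*} [TopologicalSpace W]
    [FirstCountableTopology W] {Φ : W → E →L[ℂ] E} (h : BallS Φ) {w : W} {x x' : E}
    {y y' : StrongDual ℂ E} {ρ η : ℝ} (hη : 0 < η) (hM : HC (Φ w) x y ρ)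
    (hxy : ‖y - y'‖ * ‖x‖ + ‖y'‖ * ‖x - x'‖ ≤ η) :
    w ∈ interior (HS Φ x' y' (ρ + 2 * η)) := by
  rw [mem_interior_iff_mem_nhds]
  by_contra hcon
  have h1 : ∃ᶠ v in 𝓝 w, ¬ HC (Φ v) x' y' (ρ + 2 * η) := by
    intro hc
    exact hcon (hc.mono fun v hv => not_not.1 hv)
  obtain ⟨z, hz, hz'⟩ := exists_seq_forall_of_frequently h1
  obtain ⟨hc1, hc2⟩ := h.conv z w hz
  have hS : ∀ n, ∃ S : E →L[ℂ] E, S * Φ (z n) = Φ (z n) * S ∧ ‖S‖ ≤ 1 ∧
      ρ + 2 * η < ‖y' (S x')‖ := by
    intro n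
    have := hz' n
    unfold HC at this
    push Not at this
    exact this
  choose S hS1 hS2 hS3 using hS
  set 𝒰 : Ultrafilter ℕ := hyperfilter ℕ with h𝒰
  have hle : (𝒰 : Filter ℕ) ≤ atTop := by
    rw [h𝒰, ← Nat.cofinite_eq_atTop]
    exact hyperfilter_le_cofinite
  obtain ⟨B, hB, hBl⟩ := exists_wlim hR 𝒰 S hS2
  set T := Φ w with hT
  have hcomm : B * T = T * B := by
    ext u
    rw [mul_apply_eq_comp, mul_apply_eq_comp]
    apply dual_ext
    intro v
    have l1 := hBl (T u) v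
    have l2 : Tendsto (fun n => (v.comp T) (S n u)) 𝒰 (𝓝 (v (T (B u)))) := hBl u (v.comp T)
    have l3 : Tendsto (fun n => (v.comp T) (S n u) - v (S n (T u))) 𝒰 (𝓝 0) := by
      rw [tendsto_zero_iff_norm_tendsto_zero]
      have b1 : Tendsto (fun n => ‖v.comp (Φ (z n)) - v.comp T‖ * ‖u‖ +
          ‖v‖ * ‖Φ (z n) u - T u‖) 𝒰 (𝓝 (0 * ‖u‖ + ‖v‖ * 0)) :=
        ((((tendsto_iff_norm_sub_tendsto_zero.1 (hc2 v)).mul_const _).add
          ((tendsto_iff_norm_sub_tendsto_zero.1 (hc1 u)).const_mul _))).mono_left hle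
      rw [zero_mul, mul_zero, add_zero] at b1
      refine squeeze_zero (fun _ => norm_nonneg _) (fun n => ?_) b1
      have e1 : (v.comp T) (S n u) - v (S n (T u)) =
          v (S n (Φ (z n) u - T u)) - (v.comp (Φ (z n)) - v.comp T) (S n u) := by
        have e2 := congrArg (fun R : E →L[ℂ] E => v (R u)) (hS1 n)
        simp only [mul_apply_eq_comp] at e2
        rw [_root_.sub_apply, ContinuousLinearMap.comp_apply, ContinuousLinearMap.comp_apply,
          map_sub, map_sub, e2]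
        ring
      rw [e1]
      refine (norm_sub_le _ _).trans ?_
      rw [add_comm]
      refine add_le_add ?_ (norm_pair_le (hS2 n) _ _)
      refine (ContinuousLinearMap.le_opNorm _ _).trans
        (mul_le_mul_of_nonneg_left ?_ (norm_nonneg _))
      exact ((S n).le_opNorm _).trans (mul_le_of_le_one_left (norm_nonneg _) (hS2 _))
    have l4 := l2.sub l1
    have := tendsto_nhds_unique l3 l4
    exact (sub_eq_zero.1 this.symm).symm
  have h2 := hM B hcomm hB
  have h3 : ρ + η ≤ ‖y (B x)‖ := by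
    refine ge_of_tendsto (hBl x y).norm (Eventually.of_forall fun n => ?_)
    have h5 := hS3 n
    have h6 := pair_diff (hS2 n) x' x y' y
    have h7 := norm_sub_norm_le (y' (S n x')) (y (S n x))
    rw [norm_sub_rev] at h7
    linarith
  linarith

end Pool.Agent.K4H43.TR
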