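import Mathlib
import Pool.Agent.K4H43.TR.Refl

/-!
# Sequence spaces with values in a reflexive space
-/

set_option autoImplicit false
open Filter Topology Finset TopologicalSpace
open scoped ENNReal

namespace Pool.Agent.K4H43.TR

variable {X : Type*} [NormedAddCommGroup X] [NormedSpace ℂ X]
variable {p : ℝ≥0∞} [hp1 : Fact (1 ≤ p)]

/-- The `p`-sum of countably many copies of `X`. -/
abbrev LX (X : Type*) [NormedAddCommGroup X] (p : ℝ≥0∞) := lp (fun _ : ℕ => X) p

variable (X p) in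
/-- truncation to a finite set of coordinates -/
noncomputable def T (s : Finset ℕ) : LX X p →L[ℂ] LX X p :=
  ∑ i ∈ s, (lp.singleContinuousLinearMap ℂ (fun _ : ℕ => X) p i).comp
    (lp.evalCLM ℂ (fun _ : ℕ => X) p i)

lemma T_apply (s : Finset ℕ) (f : LX X p) :
    T X p s f = ∑ i ∈ s, lp.single (E := fun _ : ℕ => X) p i (f i) := by
  simp only [T, _root_.sum_apply]
  rfl

lemma T_coe (s : Finset ℕ) (f : LX X p) (i : ℕ) : (T X p s f) i = if i ∈ s then f i else 0 := by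
  rw [T_apply]
  simp only [lp.coeFn_sum, lp.coeFn_single, Finset.sum_apply, Finset.sum_pi_single]

lemma T_T (s t : Finset ℕ) (f : LX X p) : T X p s (T X p t f) = T X p (s ∩ t) f := by
  apply lp.ext
  funext i
  rw [T_coe, T_coe, T_coe]
  by_cases h1 : i ∈ s <;> by_cases h2 : i ∈ t <;> simp [h1, h2]

lemma toReal_pos (hp : p ≠ ∞) : 0 < p.toReal :=
  ENNReal.toReal_pos (zero_lt_one.trans_le hp1.out).ne' hp

lemma T_pow (hp : p ≠ ∞) (s : Finset ℕ) (f : LX X p) :
    ‖T X p s f‖ ^ p.toReal = ∑ i ∈ s, ‖f i‖ ^ p.toReal := by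
  rw [T_apply]
  exact lp.norm_sum_single (E := fun _ : ℕ => X) (toReal_pos hp) (fun i => f i) s

lemma T_split (hp : p ≠ ∞) (s : Finset ℕ) (f : LX X p) :
    ‖f‖ ^ p.toReal = ‖T X p s f‖ ^ p.toReal + ‖f - T X p s f‖ ^ p.toReal := by
  have h := lp.norm_compl_sum_single (toReal_pos hp) f s
  rw [← T_apply] at h
  rw [h, T_pow hp]
  ring

lemma T_le (hp : p ≠ ∞) (s : Finset ℕ) (f : LX X p) : ‖T X p s f‖ ≤ ‖f‖ := by
  have h := T_split hp s f
  have h2 : 0 ≤ ‖f - T X p s f‖ ^ p.toReal := Real.rpow_nonneg (norm_nonneg _) _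
  exact (Real.rpow_le_rpow_iff (norm_nonneg _) (norm_nonneg _) (toReal_pos hp)).1 (by linarith)

lemma Tc_le (hp : p ≠ ∞) (s : Finset ℕ) (f : LX X p) : ‖f - T X p s f‖ ≤ ‖f‖ := by
  have h := T_split hp s f
  have h2 : 0 ≤ ‖T X p s f‖ ^ p.toReal := Real.rpow_nonneg (norm_nonneg _) _
  exact (Real.rpow_le_rpow_iff (norm_nonneg _) (norm_nonneg _) (toReal_pos hp)).1 (by linarith)

lemma T_tendsto (hp : p ≠ ∞) (f : LX X p) :
    Tendsto (fun s : Finset ℕ => T X p s f) atTop (𝓝 f) := by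
  have h := lp.hasSum_single hp f
  rw [HasSum] at h
  simpa [T_apply] using h

lemma T_add (hp : p ≠ ∞) (s : Finset ℕ) (x w : LX X p) (hx : T X p s x = x)
    (hw : T X p s w = 0) :
    ‖x + w‖ ^ p.toReal = ‖x‖ ^ p.toReal + ‖w‖ ^ p.toReal := by
  rw [T_split hp s (x + w), map_add, hx, hw]
  simp

lemma ev_pow {a α β : ℝ} (ha : 0 < a) (hαβ : β < α) (hα : 0 < α) (b c : ℝ) :
    ∀ᶠ N : ℕ in atTop, b * (N : ℝ) ^ β + c ≤ a * (N : ℝ) ^ α := by
  have h1 : Tendsto (fun N : ℕ => (N : ℝ) ^ (-(α - β))) atTop (𝓝 0) :=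
    (tendsto_rpow_neg_atTop (by linarith : 0 < α - β)).comp tendsto_natCast_atTop_atTop
  have h2 : Tendsto (fun N : ℕ => (N : ℝ) ^ (-α)) atTop (𝓝 0) :=
    (tendsto_rpow_neg_atTop hα).comp tendsto_natCast_atTop_atTop
  have h3 : Tendsto (fun N : ℕ => b * (N : ℝ) ^ (-(α - β)) + c * (N : ℝ) ^ (-α)) atTop (𝓝 0) := by
    simpa using (h1.const_mul b).add (h2.const_mul c)
  filter_upwards [h3.eventually (gt_mem_nhds ha), eventually_gt_atTop 0] with N hN hN0
  have hNp : (0 : ℝ) < N := by exact_mod_cast hN0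
  have h4 : (b * (N : ℝ) ^ (-(α - β)) + c * (N : ℝ) ^ (-α)) * (N : ℝ) ^ α
      = b * (N : ℝ) ^ β + c := by
    rw [add_mul, mul_assoc, mul_assoc, ← Real.rpow_add hNp, ← Real.rpow_add hNp]
    simp
  rw [← h4]
  exact mul_le_mul_of_nonneg_right hN.le (Real.rpow_nonneg hNp.le _)

lemma exists_phase' (z : ℂ) : ∃ θ : ℂ, ‖θ‖ = 1 ∧ θ * z = (‖z‖ : ℂ) := by
  by_cases hz : z = 0
  · exact ⟨1, by simp, by simp [hz]⟩
  · refine ⟨(starRingEnd ℂ) z / ‖z‖, ?_, ?_⟩
    · simp [hz]
    · have hz' : (‖z‖ : ℂ) ≠ 0 := by simpa using hz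
      rw [div_mul_eq_mul_div, mul_comm, Complex.mul_conj, Complex.normSq_eq_norm_sq]
      push_cast
      field_simp

lemma func_tail (hp : p ≠ ∞) (h1 : 1 < p.toReal) (g : StrongDual ℂ (LX X p)) :
    Tendsto (fun s : Finset ℕ => ‖g - g.comp (T X p s)‖) atTop (𝓝 0) := by
  by_contra hcon
  obtain ⟨δ, hδ, hfr⟩ : ∃ δ : ℝ, 0 < δ ∧ ∀ s₀ : Finset ℕ, ∃ s, s₀ ⊆ s ∧
      δ < ‖g - g.comp (T X p s)‖ := by
    by_contra h
    push Not at h
    apply hcon
    rw [Metric.tendsto_atTop]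
    intro ε hε
    obtain ⟨s₀, hs⟩ := h (ε / 2) (by positivity)
    refine ⟨s₀, fun s hss => ?_⟩
    have := hs s hss
    rw [Real.dist_eq, sub_zero, abs_of_nonneg (norm_nonneg _)]
    linarith
  have hstep : ∀ s₀ : Finset ℕ, ∃ (s' : Finset ℕ) (w : LX X p), s₀ ⊆ s' ∧ T X p s' w = w ∧
      T X p s₀ w = 0 ∧ ‖w‖ ≤ 1 ∧ δ < (g w).re := by
    intro s₀
    obtain ⟨s, hss, hs⟩ := hfr s₀
    obtain ⟨z0, hz01, hz0⟩ : ∃ z : LX X p, ‖z‖ ≤ 1 ∧ δ < ‖(g - g.comp (T X p s)) z‖ := by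
      by_contra h
      push Not at h
      refine absurd hs (not_lt.2 ?_)
      exact ContinuousLinearMap.opNorm_le_of_unit_norm hδ.le fun x hx => h x hx.le
    obtain ⟨θ, hθ1, hθ2⟩ := exists_phase' ((g - g.comp (T X p s)) z0)
    obtain ⟨z, hz1, hz⟩ : ∃ z : LX X p, ‖z‖ ≤ 1 ∧ δ < ((g - g.comp (T X p s)) z).re := by
      refine ⟨θ • z0, by rw [norm_smul, hθ1, one_mul]; exact hz01, ?_⟩
      rw [map_smul, smul_eq_mul, hθ2, Complex.ofReal_re]
      exact hz0
    set w := z - T X p s z with hw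
    have hgw : δ < (g w).re := by
      have : (g - g.comp (T X p s)) z = g w := by
        rw [_root_.sub_apply, hw, map_sub, ContinuousLinearMap.comp_apply]
      rwa [this] at hz
    have hlim := ((Complex.continuous_re.comp g.continuous).tendsto w).comp (T_tendsto hp w)
    have hev := hlim.eventually (lt_mem_nhds hgw)
    obtain ⟨s', hs', hs's⟩ := (hev.and (eventually_ge_atTop s)).exists
    have hsub : s₀ ⊆ s' := hss.trans hs's
    refine ⟨s', T X p s' w, hsub, ?_, ?_, ?_, hs'⟩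
    · rw [T_T, Finset.inter_self]
    · rw [T_T, Finset.inter_eq_left.2 hsub, hw, map_sub, T_T, Finset.inter_eq_left.2 hss, sub_self]
    · exact (T_le hp _ _).trans ((Tc_le hp _ _).trans hz1)
  have hK : ∀ K : ℕ, ∃ (s : Finset ℕ) (x : LX X p), T X p s x = x ∧ ‖x‖ ^ p.toReal ≤ K ∧
      K * δ ≤ (g x).re := by
    intro K
    induction K with
    | zero =>
      refine ⟨∅, 0, by simp, ?_, by simp⟩
      rw [norm_zero, Real.zero_rpow (toReal_pos hp).ne']
      simp
    | succ K ih =>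
      obtain ⟨s, x, hx1, hx2, hx3⟩ := ih
      obtain ⟨s', w, hss, hw1, hw2, hw3, hw4⟩ := hstep s
      refine ⟨s', x + w, ?_, ?_, ?_⟩
      · rw [map_add, hw1]
        congr 1
        conv_lhs => rw [← hx1]
        rw [T_T, Finset.inter_eq_right.2 hss, hx1]
      · rw [T_add hp s x w hx1 hw2]
        have : ‖w‖ ^ p.toReal ≤ 1 := Real.rpow_le_one (norm_nonneg _) hw3 (toReal_pos hp).le
        push_cast
        linarith
      · rw [map_add, Complex.add_re]
        push_cast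
        linarith
  have hN := ev_pow (a := δ) (α := 1) (β := 1 / p.toReal) hδ
    (by rw [div_lt_one (toReal_pos hp)]; exact h1) one_pos ‖g‖ 1
  obtain ⟨N, hN⟩ := hN.exists
  obtain ⟨s, x, -, hx2, hx3⟩ := hK N
  have hx4 : ‖x‖ ≤ (N : ℝ) ^ (1 / p.toReal) := by
    rw [← Real.rpow_le_rpow_iff (norm_nonneg _) (by positivity) (toReal_pos hp),
      ← Real.rpow_mul (by positivity), one_div_mul_cancel (toReal_pos hp).ne', Real.rpow_one]
    exact hx2
  have hx5 : (g x).re ≤ ‖g‖ * (N : ℝ) ^ (1 / p.toReal) :=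
    (Complex.re_le_norm _).trans ((g.le_opNorm x).trans (by gcongr))
  rw [Real.rpow_one] at hN
  linarith

theorem lp_refl (hp : p ≠ ∞) (h1 : 1 < p.toReal) (hX : Refl X) : Refl (LX X p) := by
  intro Φ
  let D : ℕ → StrongDual ℂ X →L[ℂ] StrongDual ℂ (LX X p) := fun n =>
    (ContinuousLinearMap.compL ℂ (LX X p) X ℂ).flip (lp.evalCLM ℂ (fun _ : ℕ => X) p n)
  have hDa : ∀ n (ψ : StrongDual ℂ X) (y : LX X p), D n ψ y = ψ (y n) := fun n ψ y => rfl
  have hch : ∀ n, ∃ x : X, ∀ ψ : StrongDual ℂ X, ψ x = Φ (D n ψ) := by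
    intro n
    obtain ⟨x, hx⟩ := hX (Φ.comp (D n))
    exact ⟨x, fun ψ => (hx ψ).symm⟩
  choose x hx using hch
  -- functional identity on truncations
  have key : ∀ (s : Finset ℕ) (g : StrongDual ℂ (LX X p)),
      Φ (g.comp (T X p s)) = g (∑ i ∈ s, lp.single (E := fun _ : ℕ => X) p i (x i)) := by
    intro s g
    have e1 : g.comp (T X p s) =
        ∑ i ∈ s, D i (g.comp (lp.singleContinuousLinearMap ℂ (fun _ : ℕ => X) p i)) := by
      ext y
      simp only [ContinuousLinearMap.comp_apply, T_apply, map_sum, _root_.sum_apply,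
        hDa, lp.singleContinuousLinearMap_apply]
    rw [e1, map_sum, map_sum]
    refine Finset.sum_congr rfl (fun i _ => ?_)
    rw [← hx i]
    simp
  have hmem : Memℓp x p := by
    refine memℓp_gen' (C := ‖Φ‖ ^ p.toReal) (fun s => ?_)
    rw [← lp.norm_sum_single (E := fun _ : ℕ => X) (toReal_pos hp) x s]
    apply Real.rpow_le_rpow (norm_nonneg _) _ (toReal_pos hp).le
    set v := ∑ i ∈ s, lp.single (E := fun _ : ℕ => X) p i (x i) with hv
    obtain ⟨h, hh1, hh2⟩ := exists_dual_vector'' ℂ v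
    have hTv : T X p s v = v := by
      apply lp.ext
      funext j
      rw [T_coe, hv]
      simp only [lp.coeFn_sum, lp.coeFn_single, Finset.sum_apply, Finset.sum_pi_single]
      by_cases hj : j ∈ s <;> simp [hj]
    have h3 := key s h
    rw [← hv] at h3
    have h4 : ‖h.comp (T X p s)‖ ≤ 1 := by
      refine ContinuousLinearMap.opNorm_le_bound _ zero_le_one (fun y => ?_)
      rw [ContinuousLinearMap.comp_apply]
      calc ‖h (T X p s y)‖ ≤ ‖h‖ * ‖T X p s y‖ := h.le_opNorm _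
        _ ≤ 1 * ‖y‖ := by
          apply mul_le_mul hh1 (T_le hp _ _) (norm_nonneg _) zero_le_one
    calc ‖v‖ = ‖h v‖ := by rw [hh2]; simp
      _ = ‖Φ (h.comp (T X p s))‖ := by rw [h3]
      _ ≤ ‖Φ‖ * ‖h.comp (T X p s)‖ := Φ.le_opNorm _
      _ ≤ ‖Φ‖ := mul_le_of_le_one_right Φ.opNorm_nonneg h4
  refine ⟨⟨x, hmem⟩, fun g => ?_⟩
  have hxs : ∀ s : Finset ℕ, ∑ i ∈ s, lp.single (E := fun _ : ℕ => X) p i (x i) =
      T X p s ⟨x, hmem⟩ := by
    intro s
    rw [T_apply]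
  have l1 : Tendsto (fun s : Finset ℕ => Φ (g.comp (T X p s))) atTop (𝓝 (g ⟨x, hmem⟩)) := by
    have := (g.continuous.tendsto _).comp (T_tendsto hp (⟨x, hmem⟩ : LX X p))
    refine this.congr (fun s => ?_)
    simp only [Function.comp]
    rw [key, hxs]
  have l2 : Tendsto (fun s : Finset ℕ => Φ (g.comp (T X p s))) atTop (𝓝 (Φ g)) := by
    rw [tendsto_iff_norm_sub_tendsto_zero]
    have h3 : ∀ s : Finset ℕ, ‖Φ (g.comp (T X p s)) - Φ g‖ ≤ ‖Φ‖ * ‖g - g.comp (T X p s)‖ := by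
      intro s
      rw [norm_sub_rev, ← map_sub]
      exact Φ.le_opNorm _
    refine squeeze_zero (fun s => norm_nonneg _) h3 ?_
    simpa using (func_tail hp h1 g).const_mul ‖Φ‖
  exact tendsto_nhds_unique l2 l1

theorem lp_separable (hp : p ≠ ∞) [SeparableSpace X] : SeparableSpace (LX X p) := by
  rw [← TopologicalSpace.isSeparable_univ_iff]
  have h1 : TopologicalSpace.IsSeparable
      (⋃ i : ℕ, Set.range (lp.singleContinuousLinearMap ℂ (fun _ : ℕ => X) p i)) := by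
    apply TopologicalSpace.IsSeparable.iUnion
    intro i
    exact TopologicalSpace.isSeparable_range
      (lp.singleContinuousLinearMap ℂ (fun _ : ℕ => X) p i).continuous
  have h2 := (h1.span (R := ℂ)).closure
  refine h2.mono (fun f _ => ?_)
  refine mem_closure_of_tendsto (T_tendsto hp f) (Eventually.of_forall (fun s => ?_))
  rw [T_apply]
  apply Submodule.sum_mem
  intro i _
  apply Submodule.subset_span
  exact Set.mem_iUnion.2 ⟨i, ⟨f i, rfl⟩⟩

/-- A space with separable dual is separable. -/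
theorem separable_of_dual (E : Type*) [NormedAddCommGroup E] [NormedSpace ℂ E]
    [SeparableSpace (StrongDual ℂ E)] : SeparableSpace E := by
  classical
  have _ : Nonempty (StrongDual ℂ E) := ⟨0⟩
  let fd : ℕ → StrongDual ℂ E := denseSeq (StrongDual ℂ E)
  have h1 : ∀ n, ∃ y : E, ‖y‖ ≤ 1 ∧ ‖fd n‖ / 2 ≤ ‖fd n y‖ := by
    intro n
    by_contra h
    push Not at h
    have h2 : ‖fd n‖ ≤ ‖fd n‖ / 2 :=
      ContinuousLinearMap.opNorm_le_of_unit_norm (by positivity) fun x hx => (h x hx.le).le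
    have h3 : ‖fd n‖ = 0 := le_antisymm (by linarith) (norm_nonneg _)
    have h4 := h 0 (by simp)
    rw [map_zero, norm_zero, h3] at h4
    linarith
  choose x hx1 hx2 using h1
  let W : Submodule ℂ E := Submodule.span ℂ (Set.range x)
  have hsep : TopologicalSpace.IsSeparable (W : Set E) :=
    ((Set.countable_range x).isSeparable).span
  have htop : closure (W : Set E) = Set.univ := by
    by_contra hne
    obtain ⟨z, hz⟩ := (Set.ne_univ_iff_exists_notMem _).1 hne
    obtain ⟨φ, hφz, hφ0⟩ : ∃ φ : StrongDual ℂ E, φ z ≠ 0 ∧ ∀ y ∈ W, φ y = 0 := by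
      obtain ⟨φ, u, hφ1, hφ2⟩ := RCLike.geometric_hahn_banach_closed_point (𝕜 := ℂ)
        (s := closure (W : Set E)) (W.restrictScalars ℝ).convex.closure isClosed_closure hz
      have hu : 0 < u := by
        have h1 := hφ1 0 (subset_closure W.zero_mem)
        simpa using h1
      refine ⟨φ, ?_, ?_⟩
      · intro h
        rw [h] at hφ2
        simp only [map_zero] at hφ2
        linarith
      · intro y hy
        by_contra hne
        have h1 := hφ1 _ (subset_closure (W.smul_mem (((u + 1 : ℝ) : ℂ) / φ y) hy))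
        rw [map_smul, smul_eq_mul, div_mul_cancel₀ _ hne] at h1
        have h2 : (RCLike.re ((u + 1 : ℝ) : ℂ) : ℝ) = u + 1 := Complex.ofReal_re _
        rw [h2] at h1
        linarith
    have hp : 0 < ‖φ‖ := norm_pos_iff.2 fun h => hφz (by rw [h]; rfl)
    obtain ⟨n, hn⟩ := (TopologicalSpace.denseRange_denseSeq (StrongDual ℂ E)).exists_dist_lt φ
      (show 0 < ‖φ‖ / 4 by positivity)
    rw [dist_eq_norm] at hn
    have hn' : ‖φ - fd n‖ < ‖φ‖ / 4 := hn
    have h2 : (φ - fd n) (x n) = - fd n (x n) := by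
      have : (φ - fd n) (x n) = φ (x n) - fd n (x n) := rfl
      rw [this, hφ0 _ (Submodule.subset_span ⟨n, rfl⟩), zero_sub]
    have h3 := (φ - fd n).le_opNorm (x n)
    rw [h2, norm_neg] at h3
    have h4 : ‖φ - fd n‖ * ‖x n‖ ≤ ‖φ - fd n‖ * 1 :=
      mul_le_mul_of_nonneg_left (hx1 n) (norm_nonneg _)
    have h6 := hx2 n
    have h7 : ‖φ‖ ≤ ‖φ - fd n‖ + ‖fd n‖ := by
      have := norm_add_le (φ - fd n) (fd n)
      rwa [sub_add_cancel] at this
    linarith
  have h2 := hsep.closure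
  rw [htop] at h2
  exact TopologicalSpace.isSeparable_univ_iff.1 h2

theorem separable_dual_of_refl {E : Type*} [NormedAddCommGroup E] [NormedSpace ℂ E]
    [SeparableSpace E] (h : Refl E) : SeparableSpace (StrongDual ℂ E) := by
  have h0 : Function.Surjective (NormedSpace.inclusionInDoubleDual ℂ E) := by
    intro φ
    obtain ⟨x, hx⟩ := h φ
    refine ⟨x, ?_⟩
    ext y
    rw [hx y]
    simp
  have h1 : SeparableSpace (StrongDual ℂ (StrongDual ℂ E)) :=
    h0.denseRange.separableSpace (NormedSpace.inclusionInDoubleDual ℂ E).continuous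
  exact separable_of_dual (StrongDual ℂ E)

end Pool.Agent.K4H43.TR
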