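import Pool.Agent.K4H43.TR.Near

/-!
# The density step
-/

set_option autoImplicit false
open Finset Filter Topology

namespace Pool.Agent.K4H43.TR
open Pool.Agent.Y280

variable {E : Type*} [NormedAddCommGroup E] [NormedSpace ℂ E]
variable {W : Type*} [TopologicalSpace W] {Φ : W → E →L[ℂ] E}

lemma rep_posR {p q : ℝ} (hp : 0 < p) (hq : 0 < q) {T : E →L[ℂ] E} {x : E} {y : StrongDual ℂ E}
    {ρ η : ℝ}
    (h : ∃ (m : ℕ) (U : Fin m → E) (V : Fin m → StrongDual ℂ E), ∑ b, ‖U b‖ ^ p ≤ ρ ∧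
      ∑ b, ‖V b‖ ^ q ≤ ρ ∧ ∀ S : E →L[ℂ] E, S * T = T * S → ‖S‖ ≤ 1 →
        ‖y (S x) - ∑ b, V b (S (U b))‖ ≤ η) :
    ∃ (m : ℕ) (U : Fin m → E) (V : Fin m → StrongDual ℂ E), 0 < m ∧ ∑ b, ‖U b‖ ^ p ≤ ρ ∧
      ∑ b, ‖V b‖ ^ q ≤ ρ ∧ ∀ S : E →L[ℂ] E, S * T = T * S → ‖S‖ ≤ 1 →
        ‖y (S x) - ∑ b, V b (S (U b))‖ ≤ η := by
  obtain ⟨m, U, V, h1, h2, h3⟩ := h
  refine ⟨m + 1, Fin.cons 0 U, Fin.cons 0 V, Nat.succ_pos m, ?_, ?_, ?_⟩
  · rw [Fin.sum_univ_succ]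
    simp only [Fin.cons_zero, Fin.cons_succ, norm_zero, Real.zero_rpow hp.ne', zero_add]
    exact h1
  · rw [Fin.sum_univ_succ]
    simp only [Fin.cons_zero, Fin.cons_succ, norm_zero, Real.zero_rpow hq.ne', zero_add]
    exact h2
  · intro S hS hS1
    rw [Fin.sum_univ_succ]
    simp only [Fin.cons_zero, Fin.cons_succ, _root_.zero_apply, zero_add]
    exact h3 S hS hS1

theorem step_hypR [FirstCountableTopology W] (hR : Refl E) {p q : ℝ} (hpq : p.HolderConjugate q)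
    (hE : ChainSys p E) (hE' : CopySys p E) (h : BallS Φ) {x : E} {y : StrongDual ℂ E}
    {ρ : ℝ} (hρ : 0 < ρ) {w0 : W} (hw0 : w0 ∈ interior (HS Φ x y ρ)) {V : Set W} (hV : IsOpen V)
    (hwV : w0 ∈ V) {d : ℕ → E} (hd : DenseRange d) {d' : ℕ → StrongDual ℂ E}
    (hd' : DenseRange d') {ε : ℝ} (hε : 0 < ε) (x0 : E) :
    ∃ w2 ∈ V, ∃ i j : ℕ, w2 ∈ interior (HS Φ (d i) (d' j) ε) ∧
      ‖d i - x‖ ≤ (2 * ρ) ^ (1 / p) + ε ∧ ‖d' j - y‖ ≤ (2 * ρ) ^ (1 / q) + ε ∧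
      ‖d' j x0 - y x0‖ ≤ ε := by
  classical
  have hp := hpq.pos
  have hq := hpq.symm.pos
  have hp1 : 1 ≤ p := hpq.lt.le
  have hOo : IsOpen (interior (HS Φ x y ρ) ∩ V) := isOpen_interior.inter hV
  obtain ⟨w1, hw1, s, hs0, hs1, hAs, hPR⟩ := exists_T1 hp1 hE h hOo (show w0 ∈ _ from ⟨hw0, hwV⟩)
  set A := Φ w1 with hA
  have hA1 : ‖A‖ ≤ 1 := hAs.trans hs1.le
  have hHC : HC A x y ρ := interior_subset hw1.1
  -- the functional on the commutant
  obtain ⟨m, U, Vv, hm, hU, hVv, hrep⟩ := rep_posR hp hq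
    (exists_rep_refl hR hpq hρ hHC (show 0 < ε / 32 by positivity))
  set w : ℝ := 1 - s with hw
  have hwp : 0 < w := by rw [hw]; linarith
  have hw1' : w ≤ 1 := by rw [hw]; linarith
  obtain ⟨δ₀, hδ₀, hbig⟩ := bg_HC hp hPR (show 0 < ε / 32 by positivity) hrep hwp
  -- the neighbourhood of `w1`
  obtain ⟨X, Y, ε4, hε4, hnear⟩ := h.nhd w1 _ hOo hw1
  set M : ℝ := ∑ x ∈ X, ‖x‖ with hM
  have hMX : ∀ x ∈ X, ‖x‖ ≤ M := fun x hx =>
    single_le_sum (f := fun x : E => ‖x‖) (fun _ _ => norm_nonneg _) hx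
  have hM0 : 0 ≤ M := sum_nonneg fun _ _ => norm_nonneg _
  -- the small weight
  obtain ⟨δ1, hδ10, hδ1, _⟩ := exists_small (a := M) (b := ε4 / 4) (by positivity)
    (by positivity)
  set δ : ℝ := min δ1 (min δ₀ w) with hδ
  have hδ0 : 0 < δ := lt_min hδ10 (lt_min hδ₀ hwp)
  have hδa : δ * M ≤ ε4 / 4 :=
    (mul_le_mul_of_nonneg_right (min_le_left _ _) (by positivity)).trans hδ1
  have hδb : δ ≤ δ₀ := (min_le_right _ _).trans (min_le_left _ _)
  have hδc : δ ≤ w := (min_le_right _ _).trans (min_le_right _ _)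
  -- the small number
  set K : ℝ := (2 * m + 4) + ‖y‖ + ∑ b, ‖Vv b‖ with hK
  have hsV : 0 ≤ ∑ b, ‖Vv b‖ := sum_nonneg fun _ _ => norm_nonneg _
  have hK0 : 0 ≤ K := by rw [hK]; positivity
  have hK1 : 1 ≤ K := by
    have := norm_nonneg y
    have h2 : (0 : ℝ) ≤ m := Nat.cast_nonneg m
    rw [hK]
    linarith
  obtain ⟨ε', hε'0, hε'1, _⟩ := exists_small (a := K) (b := min (ε4 / 4) (ε / 4)) hK0
    (lt_min (by positivity) (by positivity))
  have hε'2 : ε' * K ≤ ε4 / 4 := hε'1.trans (min_le_left _ _)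
  have hε'3 : ε' * K ≤ ε / 4 := hε'1.trans (min_le_right _ _)
  have hε'4 : ε' ≤ ε / 4 := by nlinarith
  have hε'5 : (2 * m + 4) * ε' ≤ ε4 / 4 := by
    refine le_trans ?_ hε'2
    rw [mul_comm]
    refine mul_le_mul_of_nonneg_left ?_ hε'0.le
    have := norm_nonneg y
    rw [hK]
    linarith
  obtain ⟨V', W', hc, hcx, hcy⟩ := hE' (m + 1) (insert x (insert x0 (X ∪ X.image A)))
    (insert y (Y ∪ Y.image fun y => y.comp A)) ε' hε'0
  set T3 := bg m V' W' A δ w with hT3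
  have hT3n : ‖T3‖ ≤ 1 := (norm_bg hc hp hs0 hAs hδ0.le hδc).trans_eq (by rw [hw]; ring)
  obtain ⟨w3, hw3⟩ := h.surj T3 hT3n
  have hw3O : w3 ∈ interior (HS Φ x y ρ) ∩ V := by
    apply hnear
    · intro z hz
      rw [hw3]
      have hz1 := hcx z (by simp [hz])
      have hz2 := hcx (A z) (by
        rw [mem_insert, mem_insert, mem_union]
        exact Or.inr (Or.inr (Or.inr (mem_image_of_mem _ hz))))
      have h1 := bg_near_x hc hp hm hA1 hδ0.le hw1' hδc hz1.2.1 hz1.2.2 hz2.1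
      refine h1.trans_lt ?_
      have h2 : δ * ‖z‖ ≤ δ * M := mul_le_mul_of_nonneg_left (hMX z hz) hδ0.le
      linarith
    · intro z hz
      rw [hw3]
      have hz1 := hcy z (by simp [hz])
      have hz2 := hcy (z.comp A) (by
        rw [mem_insert, mem_union]
        exact Or.inr (Or.inr (mem_image_of_mem _ hz)))
      have h1 := bg_near_y hc hp hA1 hδ0.le hw1' hδc hz1.1 hz1.2.2 hz2.2.1
      refine h1.trans_lt ?_
      linarith
  -- the new pair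
  set x' := xx V' x U with hx'
  set y' := yy W' y fun b => -Vv b with hy'
  have hVn : ∑ b, ‖-Vv b‖ ^ q ≤ ρ := by simpa using hVv
  have hH3 : HC (Φ w3) x' y' (2 * (ε / 32)) := by
    rw [hw3]
    exact hbig δ hδ0 hδb V' W' hc
  have hle2 : ρ ≤ 2 * ρ := by linarith
  have b1 : ‖x' - x‖ ≤ (2 * ρ) ^ (1 / p) + ε / 4 := by
    have h1 := xx_near hc hp hU (hcx x (mem_insert_self _ _)).1
    have h2 := Real.rpow_le_rpow hρ.le hle2 (show 0 ≤ 1 / p by positivity)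
    linarith
  have b2 : ‖y' - y‖ ≤ (2 * ρ) ^ (1 / q) + ε / 4 := by
    have h1 := yy_near hpq hc hVn (hcy y (mem_insert_self _ _)).2.1
    have h2 := Real.rpow_le_rpow hρ.le hle2 (show 0 ≤ 1 / q by positivity)
    linarith
  have b3 : ‖y' x0 - y x0‖ ≤ ε / 4 := by
    have hx0 := hcx x0 (by simp)
    have h1 := yy_near_x (W := W') (y := y) (U := fun b => -Vv b) hx0.2.1 hx0.2.2
    simp only [norm_neg] at h1
    refine h1.trans (le_trans ?_ hε'3)
    rw [mul_comm]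
    refine mul_le_mul_of_nonneg_left ?_ hε'0.le
    have h2 : (0 : ℝ) ≤ m := Nat.cast_nonneg m
    rw [hK]
    linarith
  -- the dense sets
  set δ' : ℝ := min (min (ε / 4) (ε / 4 / (‖x0‖ + 1))) (min 1 (ε / 8 / (‖y'‖ + ‖x'‖ + 1))) with hδ'
  have hδ'0 : 0 < δ' := by
    rw [hδ']
    exact lt_min (lt_min (by positivity) (by positivity)) (lt_min one_pos (by positivity))
  have hδ'1 : δ' ≤ ε / 4 := (min_le_left _ _).trans (min_le_left _ _)
  have hδ'2 : δ' * (‖x0‖ + 1) ≤ ε / 4 := by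
    have : δ' ≤ ε / 4 / (‖x0‖ + 1) := (min_le_left _ _).trans (min_le_right _ _)
    rwa [le_div_iff₀ (by positivity)] at this
  have hδ'3 : δ' ≤ 1 := (min_le_right _ _).trans (min_le_left _ _)
  have hδ'4 : δ' * (‖y'‖ + ‖x'‖ + 1) ≤ ε / 8 := by
    have : δ' ≤ ε / 8 / (‖y'‖ + ‖x'‖ + 1) := (min_le_right _ _).trans (min_le_right _ _)
    rwa [le_div_iff₀ (by positivity)] at this
  obtain ⟨i, hi⟩ := hd.exists_dist_lt x' hδ'0
  obtain ⟨j, hj⟩ := hd'.exists_dist_lt y' hδ'0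
  rw [dist_eq_norm] at hi hj
  have hi' : ‖d i - x'‖ < δ' := by rwa [norm_sub_rev] at hi
  have hj' : ‖d' j - y'‖ < δ' := by rwa [norm_sub_rev] at hj
  refine ⟨w3, hw3O.2, i, j, ?_, ?_, ?_, ?_⟩
  · have h1 : w3 ∈ interior (HS Φ (d i) (d' j) (2 * (ε / 32) + 2 * (ε / 4))) := by
      refine mem_interior_HS_refl hR h (by positivity) hH3 ?_
      have h2 : ‖d' j‖ ≤ ‖y'‖ + 1 := by
        have : d' j = y' + (d' j - y') := by abel
        rw [this]
        exact (norm_add_le _ _).trans (by linarith)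
      have h3 : ‖y' - d' j‖ * ‖x'‖ ≤ δ' * ‖x'‖ := mul_le_mul_of_nonneg_right hj.le (norm_nonneg _)
      have h4 : ‖d' j‖ * ‖x' - d i‖ ≤ (‖y'‖ + 1) * δ' :=
        mul_le_mul h2 hi.le (norm_nonneg _) (by positivity)
      linarith
    refine interior_mono ?_ h1
    intro w' hw'
    exact HC.mono hw' (by linarith)
  · have e1 : d i - x = (x' - x) + (d i - x') := by abel
    rw [e1]
    exact (norm_add_le _ _).trans (by linarith)
  · have e1 : d' j - y = (y' - y) + (d' j - y') := by abel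
    rw [e1]
    exact (norm_add_le _ _).trans (by linarith)
  · have e1 : d' j x0 - y x0 = (y' x0 - y x0) + (d' j - y') x0 := by
      rw [_root_.sub_apply]
      ring
    rw [e1]
    refine (norm_add_le _ _).trans ?_
    have h1 : ‖(d' j - y') x0‖ ≤ δ' * (‖x0‖ + 1) := by
      refine ((d' j - y').le_opNorm _).trans ?_
      exact mul_le_mul hj'.le (by linarith) (norm_nonneg _) hδ'0.le
    linarith

end Pool.Agent.K4H43.TR
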