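import Pool.Agent.K4H43.TR.Fin

/-!
# Transfer along isometries
-/

set_option autoImplicit false
open Filter Topology Finset TopologicalSpace
open scoped ENNReal

namespace Pool.Agent.K4H43.TR
open Pool.Agent.Y280

variable {E F : Type*} [NormedAddCommGroup E] [NormedSpace ℂ E] [NormedAddCommGroup F]
  [NormedSpace ℂ F] (e : E ≃ₗᵢ[ℂ] F)

/-- The operator on the isometric space. -/
noncomputable def cj (T : F →L[ℂ] F) : E →L[ℂ] E :=
  (e.symm : F →L[ℂ] E).comp (T.comp (e : E →L[ℂ] F))

lemma cj_apply (T : F →L[ℂ] F) (x : E) : cj e T x = e.symm (T (e x)) := rfl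

lemma cj_norm (T : F →L[ℂ] F) (x : E) : ‖cj e T x‖ = ‖T (e x)‖ := by
  rw [cj_apply, e.symm.norm_map]

/-- The functional on the isometric space. -/
noncomputable def cf (y : StrongDual ℂ E) : StrongDual ℂ F := y.comp (e.symm : F →L[ℂ] E)

lemma cf_apply (y : StrongDual ℂ E) (z : F) : cf e y z = y (e.symm z) := rfl

lemma cj_near (T : F →L[ℂ] F) (x : E) : ‖cj e T x - x‖ = ‖T (e x) - e x‖ := by
  have e1 : cj e T x - x = e.symm (T (e x) - e x) := by
    rw [map_sub, cj_apply, e.symm_apply_apply]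
  rw [e1, e.symm.norm_map]

lemma cf_near (T : F →L[ℂ] F) (y : StrongDual ℂ E) :
    ‖y.comp (cj e T) - y‖ ≤ ‖(cf e y).comp T - cf e y‖ := by
  refine ContinuousLinearMap.opNorm_le_bound _ (norm_nonneg _) fun x => ?_
  have e1 : (y.comp (cj e T) - y) x = ((cf e y).comp T - cf e y) (e x) := by
    rw [_root_.sub_apply, _root_.sub_apply, ContinuousLinearMap.comp_apply,
      ContinuousLinearMap.comp_apply, cf_apply, cf_apply, cj_apply, e.symm_apply_apply]
  rw [e1, ← e.norm_map x]
  exact ContinuousLinearMap.le_opNorm _ _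

lemma cf_comp (T : F →L[ℂ] F) (y : StrongDual ℂ E) :
    ‖y.comp (cj e T)‖ ≤ ‖(cf e y).comp T‖ := by
  refine ContinuousLinearMap.opNorm_le_bound _ (norm_nonneg _) fun x => ?_
  have e1 : (y.comp (cj e T)) x = ((cf e y).comp T) (e x) := rfl
  rw [e1, ← e.norm_map x]
  exact ContinuousLinearMap.le_opNorm _ _

include e in
theorem chainSys_tran {p : ℝ} (h : ChainSys p F) : ChainSys p E := by
  classical
  intro A B ε hε
  obtain ⟨Q, R, hc, hA, hB⟩ := h (A.image e) (B.image (cf e)) ε hε
  refine ⟨cj e Q, cj e R, ⟨fun x => ?_, fun x => ?_, fun x => ?_, fun x => ?_⟩, fun x hx => ?_,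
    fun y hy => ?_⟩
  · rw [cj_apply, cj_apply, e.apply_symm_apply, hc.qq]
  · rw [cj_apply, cj_apply, e.apply_symm_apply, hc.qr, map_zero]
  · rw [cj_norm, hc.iso, e.norm_map]
  · rw [cj_norm, norm_sub_rev, cj_near, ← e.norm_map x, norm_sub_rev]
    exact hc.ps (e x)
  · rw [cj_near]
    exact hA _ (mem_image_of_mem _ hx)
  · exact (cf_near e Q y).trans (hB _ (mem_image_of_mem _ hy))

include e in
theorem copySys_tran {p : ℝ} (h : CopySys p F) : CopySys p E := by
  classical
  intro n A B ε hε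
  obtain ⟨V, W, hc, hA, hB⟩ := h n (A.image e) (B.image (cf e)) ε hε
  refine ⟨fun a => cj e (V a), fun a => cj e (W a), ⟨fun x => ?_, fun x => ?_, fun a b x => ?_⟩,
    fun x hx => ⟨?_, ?_, fun a ha => ?_⟩, fun y hy => ⟨?_, ?_, fun a ha => ?_⟩⟩
  · have e1 : ∑ a, cj e (V a) (x a) = e.symm (∑ a, V a (e (x a))) := by
      rw [map_sum]
      rfl
    rw [e1, e.symm.norm_map]
    refine (hc.hv fun a => e (x a)).trans_eq ?_
    simp only [e.norm_map]
  · simp only [cj_norm]
    rw [← e.norm_map x]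
    exact hc.hw (e x)
  · rw [cj_apply, cj_apply, e.apply_symm_apply, hc.hwv]
    split_ifs
    · rw [e.symm_apply_apply]
    · rw [map_zero]
  · rw [cj_near]
    exact (hA _ (mem_image_of_mem _ hx)).1
  · rw [cj_near]
    exact (hA _ (mem_image_of_mem _ hx)).2.1
  · rw [cj_norm]
    exact (hA _ (mem_image_of_mem _ hx)).2.2 a ha
  · exact (cf_near e _ y).trans (hB _ (mem_image_of_mem _ hy)).1
  · exact (cf_near e _ y).trans (hB _ (mem_image_of_mem _ hy)).2.1
  · exact (cf_comp e _ y).trans ((hB _ (mem_image_of_mem _ hy)).2.2 a ha)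

include e in
theorem refl_tran (h : Refl F) : Refl E := by
  intro φ
  set D : StrongDual ℂ F →L[ℂ] StrongDual ℂ E :=
    (ContinuousLinearMap.compL ℂ E F ℂ).flip (e : E →L[ℂ] F) with hD
  obtain ⟨z, hz⟩ := h (φ.comp D)
  refine ⟨e.symm z, fun y => ?_⟩
  have h1 := hz (cf e y)
  have e1 : D (cf e y) = y := by
    ext x
    show y (e.symm (e x)) = y x
    rw [e.symm_apply_apply]
  rw [ContinuousLinearMap.comp_apply, e1] at h1
  rw [h1]
  rfl

/-- **Typical contractions of spaces isometric to `ℓ_p(X)`.** -/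
theorem typ_iso {X : Type*} [NormedAddCommGroup X] [NormedSpace ℂ X] [CompleteSpace X]
    [Nontrivial X] [SeparableSpace X] (hX : Refl X) {p : ℝ≥0∞} [Fact (1 ≤ p)] (hp1 : 1 < p)
    (htop : p ≠ ∞) (e : E ≃ₗᵢ[ℂ] LX X p) (C : Set (E →L[ℂ] E)) (hC : C = {T | ‖T‖ ≤ 1}) :
    @IsCompletelyMetrizableSpace C (sotStar C) ∧ @BaireSpace C (sotStar C) ∧
      {T : C | GoodH (T : E →L[ℂ] E)} ∈ @residual C (sotStar C) := by
  have h1 : 1 < p.toReal := by
    rw [← ENNReal.toReal_one]
    exact (ENNReal.toReal_lt_toReal ENNReal.one_ne_top htop).2 hp1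
  have hpq : p.toReal.HolderConjugate (Real.conjExponent p.toReal) :=
    Real.HolderConjugate.conjExponent h1
  have hR0 : Refl (LX X p) := lp_refl htop h1 hX
  have hR : Refl E := refl_tran e hR0
  have : SeparableSpace (LX X p) := lp_separable htop
  have : SeparableSpace E := by
    have hs : Function.Surjective e.symm := e.symm.surjective
    exact hs.denseRange.separableSpace e.symm.continuous
  have : SeparableSpace (StrongDual ℂ E) := separable_dual_of_refl hR
  have : CompleteSpace E :=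
    (completeSpace_congr (e := e.toEquiv) e.isometry.isUniformEmbedding).2 inferInstance
  have : Nontrivial (LX X p) := by
    obtain ⟨x, hx⟩ := exists_ne (0 : X)
    refine ⟨⟨lp.single (E := fun _ : ℕ => X) p 0 x, 0, fun h => hx ?_⟩⟩
    have h2 := congrArg (fun f : LX X p => (f : ℕ → X) 0) h
    simpa using h2
  have : Nontrivial E := e.toEquiv.nontrivial
  have hcm : @IsCompletelyMetrizableSpace C (sotStar C) := by
    refine cm_sotStar (fun T hT => by rw [hC] at hT; exact hT) ?_
    intro w T0 hw hlim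
    rw [hC]
    refine ContinuousLinearMap.opNorm_le_bound _ zero_le_one fun x => ?_
    refine le_of_tendsto (hlim x).norm (Eventually.of_forall fun m => ?_)
    have hm : ‖w m‖ ≤ 1 := by
      have := hw m
      rw [hC] at this
      exact this
    exact ((w m).le_opNorm x).trans (mul_le_mul_of_nonneg_right hm (norm_nonneg _))
  refine ⟨hcm, ?_, ?_⟩
  · exact @BaireSpace.of_completelyPseudoMetrizable _ (sotStar C)
      (@IsCompletelyMetrizableSpace.toIsCompletelyPseudoMetrizableSpace _ (sotStar C) hcm)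
  · let _ : TopologicalSpace C := sotStar C
    have := fc_of_cm _ hcm
    exact typ_hypR hR hpq (chainSys_tran e (chainSys_LX htop h1))
      (copySys_tran e (copySys_LX htop h1)) (ballS_sotStar C hC)

end Pool.Agent.K4H43.TR
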